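import Pool.Agent.H57.E32.Sums

/-!
Clique counts in complete multipartite graphs and in the Turan graph.
-/

namespace H57E32

open Finset

variable {V ι : Type*} [Fintype V] [DecidableEq V] [DecidableEq ι]

/-- transversals of the classes in `J` -/
def trans (c : V → ι) (J : Finset ι) : Finset (Finset V) :=
  (univ : Finset (Finset V)).filter (fun s => s.image c = J ∧ s.card = J.card)

/-- class sizes -/
def cls (c : V → ι) (j : ι) : Finset V := univ.filter (fun v => c v = j)

omit [DecidableEq V] [DecidableEq ι] in
lemma injOn_of_card [DecidableEq ι] {c : V → ι} {s : Finset V} {J : Finset ι} (h : s.image c = J)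
    (hc : s.card = J.card) : Set.InjOn c s := by
  rw [← card_image_iff, h, hc]

lemma card_trans (c : V → ι) (J : Finset ι) :
    (trans c J).card = ∏ j ∈ J, (cls c j).card := by
  induction J using Finset.induction_on with
  | empty =>
    rw [prod_empty]
    have : trans c ∅ = {∅} := by
      ext s
      simp only [trans, mem_filter, mem_univ, true_and, mem_singleton, image_eq_empty, card_empty,
        card_eq_zero]
      tauto
    rw [this, card_singleton]
  | insert j J hj ih =>
    rw [prod_insert hj, ← ih, ← card_product]
    symm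
    apply card_bij (fun (x : V × Finset V) _ => insert x.1 x.2)
    · rintro ⟨v, s⟩ hx
      rw [mem_product] at hx
      have hv : c v = j := (mem_filter.mp hx.1).2
      have hs := (mem_filter.mp hx.2).2
      have hvs : v ∉ s := by
        intro h
        apply hj
        rw [← hs.1, ← hv]
        exact mem_image_of_mem c h
      simp only [trans, mem_filter, mem_univ, true_and]
      rw [image_insert, hv, hs.1, card_insert_of_notMem hvs, hs.2, card_insert_of_notMem hj]
      exact ⟨rfl, rfl⟩
    · rintro ⟨v, s⟩ hx ⟨v', s'⟩ hx' heq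
      rw [mem_product] at hx hx'
      have hv : c v = j := (mem_filter.mp hx.1).2
      have hs := (mem_filter.mp hx.2).2
      have hv' : c v' = j := (mem_filter.mp hx'.1).2
      have hs' := (mem_filter.mp hx'.2).2
      simp only at heq
      have hns : ∀ w ∈ s, c w ≠ j := by
        intro w hw h
        apply hj
        rw [← hs.1, ← h]
        exact mem_image_of_mem c hw
      have hns' : ∀ w ∈ s', c w ≠ j := by
        intro w hw h
        apply hj
        rw [← hs'.1, ← h]
        exact mem_image_of_mem c hw
      have hvv : v = v' := by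
        have h1 : v ∈ insert v' s' := by rw [← heq]; exact mem_insert_self _ _
        rw [mem_insert] at h1
        rcases h1 with h1 | h1
        · exact h1
        · exact absurd hv (hns' v h1)
      subst hvv
      have hvs : v ∉ s := fun h => hns v h hv
      have hvs' : v ∉ s' := fun h => hns' v h hv
      have : s = s' := by
        rw [← erase_insert hvs, heq, erase_insert hvs']
      rw [this]
    · intro s' hs'
      simp only [trans, mem_filter, mem_univ, true_and] at hs'
      have hinj : Set.InjOn c s' := injOn_of_card hs'.1 hs'.2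
      have h1 : j ∈ s'.image c := by rw [hs'.1]; exact mem_insert_self _ _
      rw [mem_image] at h1
      obtain ⟨v, hv, hvj⟩ := h1
      refine ⟨(v, s'.erase v), ?_, insert_erase hv⟩
      rw [mem_product]
      refine ⟨mem_filter.mpr ⟨mem_univ _, hvj⟩, mem_filter.mpr ⟨mem_univ _, ?_, ?_⟩⟩
      · ext i
        rw [mem_image]
        constructor
        · rintro ⟨w, hw, rfl⟩
          have hw' := mem_erase.mp hw
          have h2 : c w ∈ insert j J := by rw [← hs'.1]; exact mem_image_of_mem c hw'.2
          rw [mem_insert] at h2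
          rcases h2 with h2 | h2
          · exact absurd (hinj hw'.2 hv (h2.trans hvj.symm)) hw'.1
          · exact h2
        · intro hi
          have h2 : i ∈ s'.image c := by rw [hs'.1]; exact mem_insert_of_mem hi
          rw [mem_image] at h2
          obtain ⟨w, hw, hwi⟩ := h2
          refine ⟨w, mem_erase.mpr ⟨?_, hw⟩, hwi⟩
          rintro rfl
          rw [hvj] at hwi
          exact hj (hwi ▸ hi)
      · simp only
        rw [card_erase_of_mem hv, hs'.2, card_insert_of_notMem hj]
        rfl

/-- number of cliques of a complete multipartite graph -/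
lemma kc_multi [Fintype ι] {G : SimpleGraph V} (c : V → ι) (h : ∀ v w, G.Adj v w ↔ c v ≠ c w) (k : ℕ) :
    kc k G = ∑ J ∈ powersetCard k (univ : Finset ι), ∏ j ∈ J, (cls c j).card := by
  classical
  rw [kc_eq]
  have h1 : ∀ s : Finset V, s ∈ G.cliqueFinset k ↔ s.card = k ∧ Set.InjOn c s := by
    intro s
    rw [SimpleGraph.mem_cliqueFinset_iff, SimpleGraph.isNClique_iff]
    constructor
    · rintro ⟨h1, h2⟩
      refine ⟨h2, fun x hx y hy hxy => ?_⟩
      by_contra hne
      exact (h x y).mp (h1 hx hy hne) hxy
    · rintro ⟨h1, h2⟩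
      refine ⟨fun x hx y hy hxy => (h x y).mpr (fun hc => hxy (h2 hx hy hc)), h1⟩
  have h2 : G.cliqueFinset k = (powersetCard k (univ : Finset ι)).biUnion (fun J => trans c J) := by
    ext s
    rw [h1, mem_biUnion]
    constructor
    · rintro ⟨h3, h4⟩
      have h5 : (s.image c).card = s.card := card_image_iff.mpr h4
      refine ⟨s.image c, ?_, ?_⟩
      · rw [mem_powersetCard]
        exact ⟨subset_univ _, h5.trans h3⟩
      · exact mem_filter.mpr ⟨mem_univ _, rfl, h5.symm⟩
    · rintro ⟨J, hJ, hs⟩
      rw [mem_powersetCard] at hJ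
      have hs' := (mem_filter.mp hs).2
      exact ⟨hs'.2.trans hJ.2, injOn_of_card hs'.1 hs'.2⟩
  rw [h2, card_biUnion]
  · exact sum_congr rfl (fun J _ => card_trans c J)
  · intro J _ J' _ hne
    change Disjoint (trans c J) (trans c J')
    rw [disjoint_left]
    intro s hs hs'
    exact hne ((mem_filter.mp hs).2.1.symm.trans (mem_filter.mp hs').2.1)

/-- one class of size `s+1`, the others of size `s` -/
lemma sum_prod_sizes {r k s : ℕ} (a : Fin (r + 1) → ℕ) (h0 : a 0 = s + 1)
    (h1 : ∀ j, j ≠ 0 → a j = s) :
    ∑ J ∈ powersetCard (k + 1) (univ : Finset (Fin (r + 1))), ∏ j ∈ J, a j =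
      (r.choose (k + 1)) * s ^ (k + 1) + (r.choose k) * ((s + 1) * s ^ k) := by
  classical
  have hu : (univ : Finset (Fin (r + 1))) = insert 0 (univ.erase 0) := by
    rw [insert_erase (mem_univ _)]
  have hc : ((univ : Finset (Fin (r + 1))).erase 0).card = r := by
    rw [card_erase_of_mem (mem_univ _), card_univ, Fintype.card_fin]
    rfl
  rw [hu, powersetCard_succ_insert (notMem_erase _ _), sum_union]
  · congr 1
    · have h2 : ∀ J ∈ powersetCard (k + 1) ((univ : Finset (Fin (r + 1))).erase 0),
          ∏ j ∈ J, a j = s ^ (k + 1) := by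
        intro J hJ
        rw [mem_powersetCard] at hJ
        rw [prod_congr rfl (fun j hj => h1 j (mem_erase.mp (hJ.1 hj)).1), prod_const, hJ.2]
      rw [sum_congr rfl h2, sum_const, card_powersetCard, hc, smul_eq_mul]
    · rw [sum_image]
      · have h2 : ∀ J ∈ powersetCard k ((univ : Finset (Fin (r + 1))).erase 0),
            ∏ j ∈ insert 0 J, a j = (s + 1) * s ^ k := by
          intro J hJ
          rw [mem_powersetCard] at hJ
          have h3 : (0 : Fin (r + 1)) ∉ J := fun h => (mem_erase.mp (hJ.1 h)).1 rfl
          rw [prod_insert h3, h0, prod_congr rfl (fun j hj => h1 j (mem_erase.mp (hJ.1 hj)).1),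
            prod_const, hJ.2]
        rw [sum_congr rfl h2, sum_const, card_powersetCard, hc, smul_eq_mul]
      · intro J hJ J' hJ' heq
        rw [mem_coe, mem_powersetCard] at hJ hJ'
        have h3 : (0 : Fin (r + 1)) ∉ J := fun h => (mem_erase.mp (hJ.1 h)).1 rfl
        have h4 : (0 : Fin (r + 1)) ∉ J' := fun h => (mem_erase.mp (hJ'.1 h)).1 rfl
        rw [← erase_insert h3, heq, erase_insert h4]
  · rw [disjoint_left]
    intro J hJ hJ'
    rw [mem_powersetCard] at hJ
    rw [mem_image] at hJ'
    obtain ⟨J', _, rfl⟩ := hJ'
    exact (mem_erase.mp (hJ.1 (mem_insert_self _ _))).1 rfl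

end H57E32
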