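import Mathlib

/-!
Basic counting lemmas relative to a finset `S` of vertices of a graph `G`.
-/

namespace H57E32

open Finset

variable {V : Type*} [DecidableEq V] (G : SimpleGraph V) [DecidableRel G.Adj]

/-- the neighbours of `v` in `S` -/
def nb (S : Finset V) (v : V) : Finset V := S.filter (fun w => G.Adj v w)

/-- number of neighbours of `v` in `S` -/
def dg (S : Finset V) (v : V) : ℕ := (nb G S v).card

/-- number of ordered pairs of adjacent vertices of `S` -/
def E2 (S : Finset V) : ℕ := ∑ v ∈ S, dg G S v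

/-- the light vertices of `S` -/
def lts (s : ℕ) (S : Finset V) : Finset V := S.filter (fun v => dg G S v ≤ s)

/-- twice the local functional -/
def X2 (s : ℕ) (S : Finset V) : ℤ :=
  2 * (s : ℤ) ^ 2 * (s + 1) - s * (E2 G S : ℤ) - (E2 G (lts G s S) : ℤ)

/-- `S` contains no triangle -/
def TF (S : Finset V) : Prop :=
  ∀ a ∈ S, ∀ b ∈ S, ∀ c ∈ S, G.Adj a b → G.Adj b c → G.Adj a c → False

/-- `S` is independent -/
def Ind (S : Finset V) : Prop := ∀ a ∈ S, ∀ b ∈ S, ¬ G.Adj a b

variable {G}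

omit [DecidableEq V] in
lemma mem_nb {S : Finset V} {v w : V} : w ∈ nb G S v ↔ w ∈ S ∧ G.Adj v w := by
  simp [nb]

omit [DecidableEq V] in
lemma nb_subset (S : Finset V) (v : V) : nb G S v ⊆ S := filter_subset _ _

omit [DecidableEq V] in
lemma nb_mono {S T : Finset V} (h : S ⊆ T) (v : V) : nb G S v ⊆ nb G T v :=
  filter_subset_filter _ h

omit [DecidableEq V] in
lemma dg_mono {S T : Finset V} (h : S ⊆ T) (v : V) : dg G S v ≤ dg G T v :=
  card_le_card (nb_mono h v)

omit [DecidableEq V] in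
lemma dg_le_card (S : Finset V) (v : V) : dg G S v ≤ S.card :=
  card_le_card (nb_subset S v)

lemma dg_union {A B : Finset V} (h : Disjoint A B) (v : V) :
    dg G (A ∪ B) v = dg G A v + dg G B v := by
  unfold dg nb
  rw [filter_union, card_union_of_disjoint]
  exact disjoint_filter_filter h

omit [DecidableEq V] in
lemma sum_dg_comm (A B : Finset V) :
    ∑ a ∈ A, dg G B a = ∑ b ∈ B, dg G A b := by
  unfold dg nb
  simp only [card_filter]
  rw [sum_comm]
  simp only [G.adj_comm]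

lemma E2_union {A B : Finset V} (h : Disjoint A B) :
    E2 G (A ∪ B) = E2 G A + E2 G B + 2 * ∑ a ∈ A, dg G B a := by
  unfold E2
  rw [sum_union h]
  simp only [dg_union h, sum_add_distrib]
  rw [sum_dg_comm B A]
  ring

omit [DecidableEq V] in
lemma Ind.dg_eq_zero {S : Finset V} (h : Ind G S) {v : V} (hv : v ∈ S) : dg G S v = 0 := by
  unfold dg nb
  rw [card_eq_zero, filter_eq_empty_iff]
  intro w hw
  exact h v hv w hw

omit [DecidableEq V] in
lemma Ind.E2_eq_zero {S : Finset V} (h : Ind G S) : E2 G S = 0 := by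
  unfold E2
  exact sum_eq_zero (fun v hv => h.dg_eq_zero hv)

omit [DecidableEq V] in
lemma Ind.mono {S T : Finset V} (h : Ind G T) (hST : S ⊆ T) : Ind G S :=
  fun a ha b hb => h a (hST ha) b (hST hb)

omit [DecidableEq V] in
lemma TF.mono {S T : Finset V} (h : TF G T) (hST : S ⊆ T) : TF G S :=
  fun a ha b hb c hc => h a (hST ha) b (hST hb) c (hST hc)

omit [DecidableEq V] in
lemma TF.ind_nb {S : Finset V} (h : TF G S) {v : V} (hv : v ∈ S) : Ind G (nb G S v) := by
  intro a ha b hb hab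
  rw [mem_nb] at ha hb
  exact h v hv a ha.1 b hb.1 ha.2 hab hb.2

omit [DecidableEq V] in
lemma E2_mono {S T : Finset V} (h : S ⊆ T) : E2 G S ≤ E2 G T := by
  unfold E2
  calc ∑ v ∈ S, dg G S v ≤ ∑ v ∈ S, dg G T v := sum_le_sum (fun v _ => dg_mono h v)
    _ ≤ ∑ v ∈ T, dg G T v := sum_le_sum_of_subset h

omit [DecidableEq V] in
lemma lts_subset (s : ℕ) (S : Finset V) : lts G s S ⊆ S := filter_subset _ _

omit [DecidableEq V] in
lemma X2_ge (s : ℕ) (S : Finset V) :
    ((s : ℤ) + 1) * (2 * (s : ℤ) ^ 2 - E2 G S) ≤ X2 G s S := by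
  have h : (E2 G (lts G s S) : ℤ) ≤ E2 G S := by
    exact_mod_cast E2_mono (lts_subset s S)
  unfold X2
  nlinarith

/-- the bound for a set with a bipartition -/
lemma X2_bip_aux (s : ℕ) {P Q : Finset V} (hPQ : Disjoint P Q) (hP : Ind G P)
    (hQ : Ind G Q) (hcard : P.card + Q.card ≤ 2 * s + 1) (hle : Q.card ≤ P.card) :
    0 ≤ X2 G s (P ∪ Q) := by
  have hE : E2 G (P ∪ Q) = 2 * ∑ u ∈ Q, dg G P u := by
    rw [E2_union hPQ, hP.E2_eq_zero, hQ.E2_eq_zero, sum_dg_comm]
    ring
  set L := lts G s (P ∪ Q) with hLdef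
  have hL : L = (L ∩ P) ∪ (L ∩ Q) := by
    rw [← inter_union_distrib_left]
    exact (inter_eq_left.mpr (lts_subset s _)).symm
  have hdisj : Disjoint (L ∩ P) (L ∩ Q) :=
    disjoint_of_subset_left inter_subset_right (disjoint_of_subset_right inter_subset_right hPQ)
  have hEL : E2 G L = 2 * ∑ u ∈ L ∩ Q, dg G (L ∩ P) u := by
    rw [hL, E2_union hdisj, (hP.mono inter_subset_right).E2_eq_zero,
      (hQ.mono inter_subset_right).E2_eq_zero, sum_dg_comm]
    rw [← hL]
    ring
  have hEL2 : E2 G L ≤ 2 * ∑ u ∈ L ∩ Q, dg G P u := by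
    rw [hEL]
    exact Nat.mul_le_mul_left 2 (sum_le_sum (fun u _ => dg_mono inter_subset_right u))
  have hEL3 : ∑ u ∈ L ∩ Q, dg G P u = ∑ u ∈ Q, if u ∈ L then dg G P u else 0 := by
    rw [inter_comm, ← filter_mem_eq_inter, sum_filter]
  -- pointwise bound
  have hpt : ∀ u ∈ Q, s * dg G P u + (if u ∈ L then dg G P u else 0) ≤
      s * max (s + 1) P.card := by
    intro u hu
    have hd : dg G (P ∪ Q) u = dg G P u := by
      rw [dg_union hPQ, hQ.dg_eq_zero hu, add_zero]
    split_ifs with h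
    · have hs : dg G P u ≤ s := by
        have := (mem_filter.mp h).2
        rwa [hd] at this
      have h1 : s * dg G P u + dg G P u = (s + 1) * dg G P u := by ring
      rw [h1]
      calc (s + 1) * dg G P u ≤ (s + 1) * s := Nat.mul_le_mul_left _ hs
        _ = s * (s + 1) := by ring
        _ ≤ s * max (s + 1) P.card := Nat.mul_le_mul_left _ (le_max_left _ _)
    · rw [add_zero]
      exact Nat.mul_le_mul_left _ ((dg_le_card P u).trans (le_max_right _ _))
  have hsum : s * ∑ u ∈ Q, dg G P u + ∑ u ∈ Q, (if u ∈ L then dg G P u else 0) ≤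
      Q.card * (s * max (s + 1) P.card) := by
    rw [mul_sum, ← sum_add_distrib]
    calc _ ≤ ∑ u ∈ Q, s * max (s + 1) P.card := sum_le_sum hpt
      _ = _ := by rw [sum_const, smul_eq_mul]
  have hfin : Q.card * (s * max (s + 1) P.card) ≤ s ^ 2 * (s + 1) := by
    rcases le_total (s + 1) P.card with h | h
    · rw [max_eq_right h]
      obtain ⟨k, hk⟩ := Nat.exists_eq_add_of_le h
      have hq : Q.card + k ≤ s := by omega
      have hQ' : Q.card * P.card ≤ s * (s + 1) := by
        rw [hk]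
        nlinarith [Nat.zero_le k, Nat.zero_le Q.card]
      calc Q.card * (s * P.card) = s * (Q.card * P.card) := by ring
        _ ≤ s * (s * (s + 1)) := Nat.mul_le_mul_left _ hQ'
        _ = s ^ 2 * (s + 1) := by ring
    · rw [max_eq_left h]
      have hq : Q.card ≤ s := by omega
      calc Q.card * (s * (s + 1)) ≤ s * (s * (s + 1)) := Nat.mul_le_mul_right _ hq
        _ = s ^ 2 * (s + 1) := by ring
  have htot : s * E2 G (P ∪ Q) + E2 G L ≤ 2 * (s ^ 2 * (s + 1)) := by
    rw [hE]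
    rw [hEL3] at hEL2
    calc s * (2 * ∑ u ∈ Q, dg G P u) + E2 G L
        ≤ s * (2 * ∑ u ∈ Q, dg G P u) + 2 * ∑ u ∈ Q, (if u ∈ L then dg G P u else 0) := by
          omega
      _ = 2 * (s * ∑ u ∈ Q, dg G P u + ∑ u ∈ Q, (if u ∈ L then dg G P u else 0)) := by ring
      _ ≤ 2 * (Q.card * (s * max (s + 1) P.card)) := Nat.mul_le_mul_left _ hsum
      _ ≤ _ := Nat.mul_le_mul_left _ hfin
  unfold X2
  rw [← hLdef]
  have : ((s * E2 G (P ∪ Q) + E2 G L : ℕ) : ℤ) ≤ ((2 * (s ^ 2 * (s + 1)) : ℕ) : ℤ) := by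
    exact_mod_cast htot
  push_cast at this
  linarith

lemma X2_bip (s : ℕ) {S P Q : Finset V} (hS : S = P ∪ Q) (hPQ : Disjoint P Q) (hP : Ind G P)
    (hQ : Ind G Q) (hcard : S.card ≤ 2 * s + 1) :
    0 ≤ X2 G s S := by
  subst hS
  rw [card_union_of_disjoint hPQ] at hcard
  rcases le_total Q.card P.card with h | h
  · exact X2_bip_aux s hPQ hP hQ hcard h
  · rw [union_comm]
    exact X2_bip_aux s hPQ.symm hQ hP (by omega) h

end H57E32
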