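import Pool.Agent.H57.E32.Comp

/-!
Double counting over cliques.
-/

namespace H57E32

open Finset

variable {V : Type*} [Fintype V] [DecidableEq V] (G : SimpleGraph V) [DecidableRel G.Adj]

/-- the common neighbourhood of a set of vertices -/
def cn (A : Finset V) : Finset V := univ.filter (fun v => ∀ a ∈ A, G.Adj a v)

variable {G}

lemma mem_cn {A : Finset V} {v : V} : v ∈ cn G A ↔ ∀ a ∈ A, G.Adj a v := by
  simp [cn]

lemma not_mem_of_mem_cn {A : Finset V} {v : V} (h : v ∈ cn G A) : v ∉ A := by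
  intro hv
  exact G.loopless.irrefl v (mem_cn.mp h v hv)

lemma cn_insert (A : Finset V) (v : V) : cn G (insert v A) = nb G (cn G A) v := by
  ext w
  rw [mem_cn, mem_nb, mem_cn]
  simp only [mem_insert, forall_eq_or_imp]
  tauto

lemma insert_clique {n : ℕ} {A : Finset V} (hA : A ∈ G.cliqueFinset n) {v : V} (hv : v ∈ cn G A) :
    insert v A ∈ G.cliqueFinset (n + 1) := by
  rw [SimpleGraph.mem_cliqueFinset_iff] at hA ⊢
  exact hA.insert (fun b hb => (mem_cn.mp hv b hb).symm)

lemma erase_clique {n : ℕ} {B : Finset V} (hB : B ∈ G.cliqueFinset (n + 1)) {v : V} (hv : v ∈ B) :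
    B.erase v ∈ G.cliqueFinset n := by
  rw [SimpleGraph.mem_cliqueFinset_iff, SimpleGraph.isNClique_iff] at hB ⊢
  refine ⟨hB.1.subset (by simp), ?_⟩
  rw [card_erase_of_mem hv, hB.2]
  rfl

lemma mem_cn_erase {n : ℕ} {B : Finset V} (hB : B ∈ G.cliqueFinset n) {v : V} (hv : v ∈ B) :
    v ∈ cn G (B.erase v) := by
  rw [SimpleGraph.mem_cliqueFinset_iff, SimpleGraph.isNClique_iff] at hB
  rw [mem_cn]
  intro a ha
  rw [mem_erase] at ha
  exact hB.1 ha.2 hv ha.1

/-- one step of the double counting -/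
lemma sum_step {M : Type*} [AddCommMonoid M] (n : ℕ) (F : Finset V → V → M) :
    ∑ A ∈ G.cliqueFinset n, ∑ p ∈ cn G A, F (insert p A) p =
      ∑ B ∈ G.cliqueFinset (n + 1), ∑ p ∈ B, F B p := by
  rw [sum_sigma', sum_sigma']
  refine sum_bij' (fun x _ => (⟨insert x.2 x.1, x.2⟩ : (_ : Finset V) × V))
    (fun x _ => (⟨x.1.erase x.2, x.2⟩ : (_ : Finset V) × V)) ?_ ?_ ?_ ?_ ?_
  · rintro ⟨A, p⟩ hx
    rw [mem_sigma] at hx ⊢
    exact ⟨insert_clique hx.1 hx.2, mem_insert_self _ _⟩
  · rintro ⟨B, p⟩ hx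
    rw [mem_sigma] at hx ⊢
    exact ⟨erase_clique hx.1 hx.2, mem_cn_erase hx.1 hx.2⟩
  · rintro ⟨A, p⟩ hx
    rw [mem_sigma] at hx
    simp only
    rw [erase_insert (not_mem_of_mem_cn hx.2)]
  · rintro ⟨B, p⟩ hx
    rw [mem_sigma] at hx
    simp only
    rw [insert_erase hx.2]
  · rintro ⟨A, p⟩ _
    rfl

lemma card_of_mem {n : ℕ} {B : Finset V} (hB : B ∈ G.cliqueFinset n) : B.card = n := by
  rw [SimpleGraph.mem_cliqueFinset_iff, SimpleGraph.isNClique_iff] at hB
  exact hB.2

lemma sum_cn_card (n : ℕ) :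
    ∑ A ∈ G.cliqueFinset n, (cn G A).card = (n + 1) * (G.cliqueFinset (n + 1)).card := by
  have h := sum_step (G := G) n (fun _ _ => (1 : ℕ))
  simp only [sum_const, smul_eq_mul, mul_one] at h
  rw [h]
  rw [sum_congr rfl (fun B hB => card_of_mem hB), sum_const, smul_eq_mul, mul_comm]

lemma sum_E2 (n : ℕ) :
    ∑ A ∈ G.cliqueFinset n, E2 G (cn G A) = (n + 1) * (n + 2) * (G.cliqueFinset (n + 2)).card := by
  have h := sum_step (G := G) n (fun B _ => (cn G B).card)
  have h1 : ∀ A, E2 G (cn G A) = ∑ p ∈ cn G A, (cn G (insert p A)).card := by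
    intro A
    unfold E2 dg
    exact sum_congr rfl (fun p _ => by rw [cn_insert])
  simp only [h1]
  rw [h]
  have h2 : ∀ B ∈ G.cliqueFinset (n + 1), ∑ p ∈ B, (cn G B).card = (n + 1) * (cn G B).card := by
    intro B hB
    rw [sum_const, smul_eq_mul, card_of_mem hB]
  rw [sum_congr rfl h2, ← mul_sum, sum_cn_card]
  ring

/-- the light indicator: `z` is light in `T` -/
def lgt (G : SimpleGraph V) [DecidableRel G.Adj] (s : ℕ) (T : Finset V) (z : V) : ℕ :=
  if (cn G (T.erase z)).card ≤ s then 1 else 0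

lemma sum_L2 (s n : ℕ) :
    ∑ A ∈ G.cliqueFinset n, E2 G (lts G s (cn G A)) =
      ∑ T ∈ G.cliqueFinset (n + 2), ∑ q ∈ T, ∑ p ∈ T.erase q, lgt G s T q * lgt G s T p := by
  have h1 : ∀ A, E2 G (lts G s (cn G A)) = ∑ p ∈ cn G A,
      (if (cn G (insert p A)).card ≤ s then 1 else 0) *
        ∑ q ∈ cn G (insert p A), (if (cn G (insert q A)).card ≤ s then 1 else 0) := by
    intro A
    unfold E2 lts
    rw [sum_filter]
    apply sum_congr rfl
    intro p hp
    have hp' : dg G (cn G A) p = (cn G (insert p A)).card := by unfold dg; rw [cn_insert]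
    rw [hp']
    split_ifs with h
    · rw [one_mul, ← card_filter]
      unfold dg
      congr 1
      ext q
      rw [mem_nb, mem_filter, mem_filter, cn_insert A p, mem_nb]
      have hq' : dg G (cn G A) q = (cn G (insert q A)).card := by unfold dg; rw [cn_insert]
      unfold dg at hq'
      rw [hq']
      tauto
    · rw [zero_mul]
  rw [sum_congr rfl (fun A _ => h1 A)]
  -- first step
  have h2 : ∀ A ∈ G.cliqueFinset n, ∑ p ∈ cn G A,
      (if (cn G (insert p A)).card ≤ s then 1 else 0) *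
        ∑ q ∈ cn G (insert p A), (if (cn G (insert q A)).card ≤ s then 1 else 0) =
      ∑ p ∈ cn G A, (fun B p => (if (cn G B).card ≤ s then 1 else 0) *
        ∑ q ∈ cn G B, (if (cn G (insert q (B.erase p))).card ≤ s then 1 else 0)) (insert p A) p := by
    intro A _
    apply sum_congr rfl
    intro p hp
    simp only
    rw [erase_insert (not_mem_of_mem_cn hp)]
  rw [sum_congr rfl h2, sum_step (G := G) n (fun B p => (if (cn G B).card ≤ s then 1 else 0) *
        ∑ q ∈ cn G B, (if (cn G (insert q (B.erase p))).card ≤ s then 1 else 0))]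
  -- second step
  have h3 : ∀ B ∈ G.cliqueFinset (n + 1), ∑ p ∈ B, (if (cn G B).card ≤ s then 1 else 0) *
        ∑ q ∈ cn G B, (if (cn G (insert q (B.erase p))).card ≤ s then 1 else 0) =
      ∑ q ∈ cn G B, (fun T q => ∑ p ∈ T.erase q, lgt G s T q * lgt G s T p) (insert q B) q := by
    intro B _
    simp only [mul_sum]
    rw [sum_comm]
    apply sum_congr rfl
    intro q hq
    have hqB := not_mem_of_mem_cn hq
    rw [erase_insert hqB]
    apply sum_congr rfl
    intro p hp
    unfold lgt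
    rw [erase_insert hqB]
    have hpq : p ≠ q := fun h => hqB (h ▸ hp)
    rw [erase_insert_of_ne (Ne.symm hpq)]
  rw [sum_congr rfl h3]
  exact sum_step (G := G) (n + 1) (fun T q => ∑ p ∈ T.erase q, lgt G s T q * lgt G s T p)

end H57E32
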