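import Pool.Agent.H57.E32.Contra

/-!
Compensation: the sum of the local functionals of all links is nonnegative.
-/

namespace H57E32

open Finset

variable {V : Type*} [DecidableEq V] {G : SimpleGraph V} [DecidableRel G.Adj]

/-- a vertex which is the special vertex of `m` bad vertices has a large functional -/
lemma special_large {s : ℕ} (hs : 1200 ≤ s) {S0 : Finset V}
    (hK : ∀ a ∈ S0, TF G (nb G S0 a)) (hdeg : ∀ a ∈ S0, (nb G S0 a).card ≤ 2 * s + 1)
    {x : V} (hx : x ∈ S0) {B : Finset V} (hBne : B.Nonempty)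
    (hB : ∀ v ∈ B, v ∈ S0 ∧ (∃ W C D z, BS G s (nb G S0 v) W C D x z ∧ C.card ≤ D.card) ∧
      ∀ q ∈ nb G S0 v, 2 * s ^ 2 ≤ E2 G (nb G S0 q) + 8 * s + 3) :
    4 * ((s : ℤ) + 1) * B.card ≤ X2 G s (nb G S0 x) := by
  have hBS : B ⊆ nb G S0 x := by
    intro v hv
    obtain ⟨hvS, ⟨W, C, D, z, hBS, hCD⟩, hβ⟩ := hB v hv
    exact mem_nb.mpr ⟨hvS, (mem_nb.mp hBS.xS).2.symm⟩
  have hlow : ∀ v ∈ B, 2 * dg G (nb G S0 x) v ≤ s + 2 := by
    intro v hv
    obtain ⟨hvS, ⟨W, C, D, z, hBS, hCD⟩, hβ⟩ := hB v hv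
    have : dg G (nb G S0 x) v = C.card + 1 := by
      unfold dg
      rw [← nb_nb_comm, hBS.nbx, card_insert_of_notMem hBS.zC]
    have := hBS.cardCD
    omega
  have hX := X2_ge (G := G) s (nb G S0 x)
  have hs1 : (0 : ℤ) ≤ (s : ℤ) + 1 := by positivity
  have hmain : 4 * (B.card : ℤ) ≤ 2 * (s : ℤ) ^ 2 - E2 G (nb G S0 x) := by
    by_cases hm : 3 ≤ B.card
    · exact many_low (by omega) (hK x hx) (hdeg x hx) hBS hm hlow
    · push Not at hm
      by_cases hE : 2 * s ^ 2 ≤ E2 G (nb G S0 x) + 7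
      · exfalso
        obtain ⟨v, hv⟩ := hBne
        obtain ⟨hvS, ⟨W, C, D, z, hBS, hCD⟩, hβ⟩ := hB v hv
        exact key_contra hs hK hdeg hvS hBS hCD hβ hE
      · push Not at hE
        have h1 : (E2 G (nb G S0 x) : ℤ) + 8 ≤ 2 * (s : ℤ) ^ 2 := by
          have : E2 G (nb G S0 x) + 8 ≤ 2 * s ^ 2 := by omega
          exact_mod_cast this
        have h2 : (B.card : ℤ) ≤ 2 := by
          have : B.card ≤ 2 := by omega
          exact_mod_cast this
        linarith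
  calc 4 * ((s : ℤ) + 1) * B.card = ((s : ℤ) + 1) * (4 * B.card) := by ring
    _ ≤ ((s : ℤ) + 1) * (2 * (s : ℤ) ^ 2 - E2 G (nb G S0 x)) := mul_le_mul_of_nonneg_left hmain hs1
    _ ≤ _ := hX

theorem link_sum_nonneg {s : ℕ} (hs : 1200 ≤ s) {S0 : Finset V}
    (hK : ∀ a ∈ S0, TF G (nb G S0 a)) (hdeg : ∀ a ∈ S0, (nb G S0 a).card ≤ 2 * s + 1) :
    0 ≤ ∑ v ∈ S0, X2 G s (nb G S0 v) := by
  classical
  set f : V → ℤ := fun v => X2 G s (nb G S0 v) with hf
  have hs1 : (0 : ℤ) ≤ (s : ℤ) + 1 := by positivity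
  set Bad := S0.filter (fun v => f v < 0) with hBad
  have hloc : ∀ v ∈ Bad, -2 * ((s : ℤ) + 1) ≤ f v ∧
      ∃ W C D x z, BS G s (nb G S0 v) W C D x z ∧ C.card ≤ D.card := by
    intro v hv
    rw [hBad, mem_filter] at hv
    rcases local_lemma (by omega : 1 ≤ s) (hK v hv.1) (hdeg v hv.1) with h | h
    · exact absurd h (not_le.mpr hv.2)
    · exact h
  set Pα : V → Prop := fun v => ∃ q ∈ nb G S0 v, 4 * ((s : ℤ) + 1) * (2 * s + 1) ≤ f q with hPα
  set Bα := Bad.filter Pα with hBα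
  set Bβ := Bad.filter (fun v => ¬ Pα v) with hBβ
  have hcards : Bα.card + Bβ.card = Bad.card := card_filter_add_card_filter_not Pα
  -- functions
  have hq : ∀ v, ∃ q, v ∈ Bα → q ∈ nb G S0 v ∧ 4 * ((s : ℤ) + 1) * (2 * s + 1) ≤ f q := by
    intro v
    by_cases h : v ∈ Bα
    · obtain ⟨q, hq1, hq2⟩ := (mem_filter.mp h).2
      exact ⟨q, fun _ => ⟨hq1, hq2⟩⟩
    · exact ⟨v, fun h' => absurd h' h⟩
  choose q hq using hq
  have hx : ∀ v, ∃ x, v ∈ Bβ →
      ∃ W C D z, BS G s (nb G S0 v) W C D x z ∧ C.card ≤ D.card := by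
    intro v
    by_cases h : v ∈ Bβ
    · obtain ⟨W, C, D, x, z, h1⟩ := (hloc v (mem_filter.mp h).1).2
      exact ⟨x, fun _ => ⟨W, C, D, z, h1⟩⟩
    · exact ⟨v, fun h' => absurd h' h⟩
  choose x hx using hx
  -- the alpha part
  have hα : 4 * ((s : ℤ) + 1) * Bα.card ≤ ∑ v ∈ S0.filter (fun v => 0 ≤ f v), f v := by
    have h1 : Bα.card = ∑ y ∈ Bα.image q, (Bα.filter (fun v => q v = y)).card :=
      card_eq_sum_card_image q Bα
    have h2 : ∀ y ∈ Bα.image q, 4 * ((s : ℤ) + 1) * ((Bα.filter (fun v => q v = y)).card : ℤ) ≤ f y := by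
      intro y hy
      rw [mem_image] at hy
      obtain ⟨v, hv, rfl⟩ := hy
      have h3 : Bα.filter (fun w => q w = q v) ⊆ nb G S0 (q v) := by
        intro w hw
        rw [mem_filter] at hw
        have h4 := (hq w hw.1).1
        rw [hw.2] at h4
        have h5 : w ∈ S0 := (mem_filter.mp (mem_filter.mp hw.1).1).1
        exact mem_nb.mpr ⟨h5, (mem_nb.mp h4).2.symm⟩
      have h6 : q v ∈ S0 := (mem_nb.mp (hq v hv).1).1
      have h7 : ((Bα.filter (fun w => q w = q v)).card : ℤ) ≤ 2 * s + 1 := by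
        exact_mod_cast (card_le_card h3).trans (hdeg _ h6)
      calc 4 * ((s : ℤ) + 1) * ((Bα.filter (fun w => q w = q v)).card : ℤ)
          ≤ 4 * ((s : ℤ) + 1) * (2 * s + 1) :=
            mul_le_mul_of_nonneg_left h7 (by positivity)
        _ ≤ f (q v) := (hq v hv).2
    have h3 : Bα.image q ⊆ S0.filter (fun v => 0 ≤ f v) := by
      intro y hy
      rw [mem_image] at hy
      obtain ⟨v, hv, rfl⟩ := hy
      rw [mem_filter]
      refine ⟨(mem_nb.mp (hq v hv).1).1, le_trans (by positivity) (hq v hv).2⟩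
    calc 4 * ((s : ℤ) + 1) * Bα.card
        = ∑ y ∈ Bα.image q, 4 * ((s : ℤ) + 1) * ((Bα.filter (fun v => q v = y)).card : ℤ) := by
          rw [← mul_sum]
          congr 1
          exact_mod_cast h1
      _ ≤ ∑ y ∈ Bα.image q, f y := sum_le_sum h2
      _ ≤ _ := sum_le_sum_of_subset_of_nonneg h3 (fun v hv _ => (mem_filter.mp hv).2)
  -- the beta part
  have hβ : 4 * ((s : ℤ) + 1) * Bβ.card ≤ ∑ v ∈ S0.filter (fun v => 0 ≤ f v), f v := by
    have h1 : Bβ.card = ∑ y ∈ Bβ.image x, (Bβ.filter (fun v => x v = y)).card :=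
      card_eq_sum_card_image x Bβ
    have h2 : ∀ y ∈ Bβ.image x, y ∈ S0 ∧
        4 * ((s : ℤ) + 1) * ((Bβ.filter (fun v => x v = y)).card : ℤ) ≤ f y := by
      intro y hy
      rw [mem_image] at hy
      obtain ⟨v, hv, rfl⟩ := hy
      have hxS : x v ∈ S0 := by
        obtain ⟨W, C, D, z, hBS, _⟩ := hx v hv
        exact (mem_nb.mp hBS.xS).1
      refine ⟨hxS, ?_⟩
      apply special_large hs hK hdeg hxS
      · exact ⟨v, mem_filter.mpr ⟨hv, rfl⟩⟩
      · intro w hw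
        rw [mem_filter] at hw
        have hwS : w ∈ S0 := (mem_filter.mp (mem_filter.mp hw.1).1).1
        refine ⟨hwS, ?_, ?_⟩
        · rw [← hw.2]; exact hx w hw.1
        · intro r hr
          have h4 := (mem_filter.mp hw.1).2
          simp only [hPα, not_exists, not_and, not_le] at h4
          have h5 := h4 r hr
          have h6 := X2_ge (G := G) s (nb G S0 r)
          by_contra hcon
          push Not at hcon
          have h7 : (E2 G (nb G S0 r) : ℤ) + 8 * s + 3 + 1 ≤ 2 * (s : ℤ) ^ 2 := by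
            exact_mod_cast hcon
          have h8 : ((s : ℤ) + 1) * (8 * s + 4) ≤ ((s : ℤ) + 1) * (2 * (s : ℤ) ^ 2 - E2 G (nb G S0 r)) :=
            mul_le_mul_of_nonneg_left (by linarith) hs1
          have h9 : ((s : ℤ) + 1) * (8 * s + 4) = 4 * ((s : ℤ) + 1) * (2 * s + 1) := by ring
          have h10 : f r = X2 G s (nb G S0 r) := rfl
          linarith
    have h3 : Bβ.image x ⊆ S0.filter (fun v => 0 ≤ f v) := by
      intro y hy
      obtain ⟨h4, h5⟩ := h2 y hy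
      rw [mem_filter]
      exact ⟨h4, le_trans (by positivity) h5⟩
    calc 4 * ((s : ℤ) + 1) * Bβ.card
        = ∑ y ∈ Bβ.image x, 4 * ((s : ℤ) + 1) * ((Bβ.filter (fun v => x v = y)).card : ℤ) := by
          rw [← mul_sum]
          congr 1
          exact_mod_cast h1
      _ ≤ ∑ y ∈ Bβ.image x, f y := sum_le_sum (fun y hy => (h2 y hy).2)
      _ ≤ _ := sum_le_sum_of_subset_of_nonneg h3 (fun v hv _ => (mem_filter.mp hv).2)
  -- conclusion
  have hsplit : ∑ v ∈ S0, f v = ∑ v ∈ S0.filter (fun v => 0 ≤ f v), f v + ∑ v ∈ Bad, f v := by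
    rw [← sum_filter_add_sum_filter_not S0 (fun v => 0 ≤ f v)]
    congr 1
    rw [hBad]
    apply sum_congr
    · ext v; simp only [mem_filter, not_le]
    · intro _ _; rfl
  have hbad : -2 * ((s : ℤ) + 1) * Bad.card ≤ ∑ v ∈ Bad, f v := by
    calc -2 * ((s : ℤ) + 1) * Bad.card = ∑ _v ∈ Bad, (-2 * ((s : ℤ) + 1)) := by
          rw [sum_const, nsmul_eq_mul]; ring
      _ ≤ _ := sum_le_sum (fun v hv => (hloc v hv).1)
  have hc : (Bα.card : ℤ) + Bβ.card = Bad.card := by exact_mod_cast hcards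
  show 0 ≤ ∑ v ∈ S0, f v
  rw [hsplit]
  have : -2 * ((s : ℤ) + 1) * Bad.card = -(1/2 : ℤ) * 0 + (-2 * ((s : ℤ) + 1) * Bα.card + -2 * ((s : ℤ) + 1) * Bβ.card) := by
    rw [← hc]; ring
  linarith

/-- the crude bound, without compensation -/
theorem link_sum_ge {s : ℕ} (hs : 1 ≤ s) {S0 : Finset V}
    (hK : ∀ a ∈ S0, TF G (nb G S0 a)) (hdeg : ∀ a ∈ S0, (nb G S0 a).card ≤ 2 * s + 1) :
    -2 * ((s : ℤ) + 1) * S0.card ≤ ∑ v ∈ S0, X2 G s (nb G S0 v) := by
  calc -2 * ((s : ℤ) + 1) * S0.card = ∑ _v ∈ S0, (-2 * ((s : ℤ) + 1)) := by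
        rw [sum_const, nsmul_eq_mul]; ring
    _ ≤ _ := by
      apply sum_le_sum
      intro v hv
      rcases local_lemma hs (hK v hv) (hdeg v hv) with h | h
      · have : (0 : ℤ) ≤ (s : ℤ) + 1 := by positivity
        linarith
      · exact h.1

end H57E32
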