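import Pool.Agent.H57.E32.Stab

/-!
A bad vertex whose whole link is dense has a special vertex with a sparse link.
-/

namespace H57E32

open Finset

variable {V : Type*} [DecidableEq V] {G : SimpleGraph V} [DecidableRel G.Adj]

omit [DecidableEq V] in
lemma nb_nb_comm (S0 : Finset V) (v x : V) : nb G (nb G S0 v) x = nb G (nb G S0 x) v := by
  ext w
  simp only [mem_nb]
  tauto


lemma key_contra {s : ℕ} (hs : 1200 ≤ s) {S0 : Finset V}
    (hK : ∀ a ∈ S0, TF G (nb G S0 a)) (hdeg : ∀ a ∈ S0, (nb G S0 a).card ≤ 2 * s + 1)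
    {v x z : V} {W C D : Finset V} (hv : v ∈ S0) (hBS : BS G s (nb G S0 v) W C D x z)
    (hCD : C.card ≤ D.card)
    (hβ : ∀ q ∈ nb G S0 v, 2 * s ^ 2 ≤ E2 G (nb G S0 q) + 8 * s + 3)
    (hx : 2 * s ^ 2 ≤ E2 G (nb G S0 x) + 7) : False := by
  classical
  -- x
  have hxS := mem_nb.mp hBS.xS
  set Sx := nb G S0 x with hSx
  have hvSx : v ∈ Sx := mem_nb.mpr ⟨hv, hxS.2.symm⟩
  have hTFx : TF G Sx := hK x hxS.1
  have hSxc : Sx.card ≤ 2 * s + 1 := hdeg x hxS.1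
  have hdv : dg G Sx v = C.card + 1 := by
    unfold dg
    rw [hSx, ← nb_nb_comm, hBS.nbx, card_insert_of_notMem hBS.zC]
  have hdv2 : 2 * dg G Sx v ≤ s + 2 := by
    have := hBS.cardCD
    omega
  -- γ
  obtain ⟨γ, hγC⟩ := hBS.neC
  have hγSv := mem_nb.mp (hBS.CS hγC)
  have hxγ : G.Adj x γ := by
    have : γ ∈ nb G (nb G S0 v) x := by rw [hBS.nbx]; exact mem_insert_of_mem hγC
    exact (mem_nb.mp this).2
  have hγSx : γ ∈ Sx := mem_nb.mpr ⟨hγSv.1, hxγ⟩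
  have hγv : γ ≠ v := fun h => G.loopless.irrefl v (by rw [h] at hγSv; exact hγSv.2)
  -- degree of γ in Sx
  have hdγ : 2 * s ≤ 4 * dg G Sx γ + 19 := by
    have hB : ({γ, v} : Finset V) ⊆ Sx := by
      intro a ha
      simp only [mem_insert, mem_singleton] at ha
      rcases ha with rfl | rfl <;> assumption
    have h1 := E2_remove (G := G) hB
    have h2 := mantel (hTFx.mono (sdiff_subset (s := Sx) (t := {γ, v})))
    have h3 : (Sx \ {γ, v}).card = Sx.card - 2 := by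
      rw [card_sdiff_of_subset hB, card_pair hγv]
    rw [sum_pair hγv] at h1
    rw [h3] at h2
    have h4 : (Sx.card - 2) ^ 2 ≤ (2 * s - 1) ^ 2 := Nat.pow_le_pow_left (by omega) 2
    have h5 : 2 * E2 G (Sx \ {γ, v}) ≤ (2 * s - 1) ^ 2 := h2.trans h4
    have h6 : 1 ≤ 2 * s := by omega
    zify [h6] at h5
    zify at h1 hx hdv2 ⊢
    nlinarith
  set Y := (nb G Sx γ).erase v with hY
  have hYc : 2 * s ≤ 4 * Y.card + 23 := by
    have h1 : v ∈ nb G Sx γ := mem_nb.mpr ⟨hvSx, hγSv.2.symm⟩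
    have h2 : Y.card = dg G Sx γ - 1 := by rw [hY, card_erase_of_mem h1]; rfl
    omega
  have hYmem : ∀ y ∈ Y, y ∈ S0 ∧ G.Adj x y ∧ G.Adj γ y ∧ y ≠ v ∧ ¬ G.Adj v y := by
    intro y hy
    rw [hY, mem_erase, mem_nb, hSx, mem_nb] at hy
    refine ⟨hy.2.1.1, hy.2.1.2, hy.2.2, hy.1, ?_⟩
    intro h
    exact hTFx v hvSx γ hγSx y (mem_nb.mpr hy.2.1) hγSv.2 hy.2.2 h
  -- L1 in the link of γ
  have hWcard : (W.card : ℤ) + 1 = s := by exact_mod_cast hBS.cardW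
  have hL1γ : 15 * ∑ a ∈ Y, ((W.card : ℤ) - dg G W a) ≤ (s : ℤ) ^ 2 + 150 * s + 45 := by
    have hnbγ : nb G (nb G S0 γ) v = insert x W := by
      rw [← nb_nb_comm, hBS.nbC γ hγC]
    apply L1 hs (hK γ hγSv.1) (hdeg γ hγSv.1) (hβ γ (hBS.CS hγC)) (p := v)
      (mem_nb.mpr ⟨hv, hγSv.2.symm⟩)
    · unfold dg
      rw [hnbγ, card_insert_of_notMem hBS.xW, hBS.cardW]
    · rw [hnbγ]; exact subset_insert _ _
    · intro y hy
      have := hYmem y hy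
      exact mem_nb.mpr ⟨this.1, this.2.2.1⟩
    · intro h; exact (hYmem v h).2.2.2.1 rfl
    · intro y hy; exact (hYmem y hy).2.2.2.2
  -- choice of w
  have hWne : W.Nonempty := by
    rw [← card_pos]
    have := hBS.cardW
    omega
  have hswap : ∑ w ∈ W, ((Y.card : ℤ) - dg G Y w) = ∑ a ∈ Y, ((W.card : ℤ) - dg G W a) := by
    rw [sum_sub_distrib, sum_sub_distrib, sum_const, sum_const, nsmul_eq_mul, nsmul_eq_mul]
    have : (∑ w ∈ W, (dg G Y w : ℤ)) = ∑ a ∈ Y, (dg G W a : ℤ) := by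
      exact_mod_cast sum_dg_comm (G := G) W Y
    rw [this]
    ring
  obtain ⟨w, hw, hwmin⟩ := W.exists_min_image (fun w => (Y.card : ℤ) - dg G Y w) hWne
  have hwbound : 15 * ((W.card : ℤ) * ((Y.card : ℤ) - dg G Y w)) ≤ (s : ℤ) ^ 2 + 150 * s + 45 := by
    have h1 : (W.card : ℤ) * ((Y.card : ℤ) - dg G Y w) ≤ ∑ w ∈ W, ((Y.card : ℤ) - dg G Y w) := by
      rw [← nsmul_eq_mul, ← sum_const]
      exact sum_le_sum (fun w' hw' => hwmin w' hw')
    rw [hswap] at h1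
    linarith
  have hwSv := mem_nb.mp (hBS.WS hw)
  set Yw := nb G Y w with hYw
  have hYwc : Yw.card = dg G Y w := rfl
  -- size of Yw
  set h : ℕ := 2 * s / 5 with hh
  have hh1 : 5 * h ≤ 2 * s := by omega
  have hh2 : 2 * s ≤ 5 * h + 4 := by omega
  have hYwh : h ≤ Yw.card := by
    by_contra hcon
    push Not at hcon
    have h1 : (Yw.card : ℤ) + 1 ≤ h := by exact_mod_cast hcon
    have h2 : (5 : ℤ) * h ≤ 2 * s := by exact_mod_cast hh1
    have h3 : (2 : ℤ) * s ≤ 4 * Y.card + 23 := by exact_mod_cast hYc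
    have h4 : (1200 : ℤ) ≤ s := by exact_mod_cast hs
    rw [← hYwc] at hwbound
    have h5 : (W.card : ℤ) = s - 1 := by linarith
    rw [h5] at hwbound
    -- Y - Yw ≥ s/10 - 23/4 + 1
    have h6 : (2 : ℤ) * s - 115 ≤ 20 * ((Y.card : ℤ) - Yw.card) := by linarith
    have h7 : ((s : ℤ) - 1) * (2 * s - 115) ≤ ((s : ℤ) - 1) * (20 * ((Y.card : ℤ) - Yw.card)) :=
      mul_le_mul_of_nonneg_left h6 (by linarith)
    nlinarith
  obtain ⟨Y0, hY0, hY0c⟩ := exists_subset_card_eq hYwh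
  have hY0Y : Y0 ⊆ Y := hY0.trans (nb_subset _ _)
  -- L1 in the link of w
  have hL1w : 15 * ∑ a ∈ Y0, ((D.card : ℤ) - dg G D a) ≤ (s : ℤ) ^ 2 + 150 * s + 45 := by
    have hnbw : nb G (nb G S0 w) v = C ∪ D := by
      rw [← nb_nb_comm, hBS.nbW w hw]
    apply L1 hs (hK w hwSv.1) (hdeg w hwSv.1) (hβ w (hBS.WS hw)) (p := v)
      (mem_nb.mpr ⟨hv, hwSv.2.symm⟩)
    · unfold dg
      rw [hnbw, card_union_of_disjoint hBS.CD, hBS.cardCD]
    · rw [hnbw]; exact subset_union_right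
    · intro y hy
      have h1 := hYmem y (hY0Y hy)
      exact mem_nb.mpr ⟨h1.1, (mem_nb.mp (hY0 hy)).2⟩
    · intro h; exact (hYmem v (hY0Y h)).2.2.2.1 rfl
    · intro y hy; exact (hYmem y (hY0Y hy)).2.2.2.2
  have hL1γ0 : 15 * ∑ a ∈ Y0, ((W.card : ℤ) - dg G W a) ≤ (s : ℤ) ^ 2 + 150 * s + 45 := by
    have : ∑ a ∈ Y0, ((W.card : ℤ) - dg G W a) ≤ ∑ a ∈ Y, ((W.card : ℤ) - dg G W a) :=
      sum_le_sum_of_subset_of_nonneg hY0Y (fun a _ _ => missing_nonneg W a)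
    linarith
  -- degrees in Sx
  have hsumx : 2 * (s : ℤ) ^ 2 - 7 ≤ (2 * (s : ℤ) - h) ^ 2 / 2 + (s + 2) +
      2 * ∑ y ∈ Y0, (dg G Sx y : ℤ) := by
    have hvY0 : v ∉ Y0 := fun h => (hYmem v (hY0Y h)).2.2.2.1 rfl
    have hB : insert v Y0 ⊆ Sx := by
      intro a ha
      rw [mem_insert] at ha
      rcases ha with rfl | ha
      · exact hvSx
      · have := hYmem a (hY0Y ha)
        exact mem_nb.mpr ⟨this.1, this.2.1⟩
    have h1 := E2_remove (G := G) hB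
    have h2 := mantel (hTFx.mono (sdiff_subset (s := Sx) (t := insert v Y0)))
    have h3 : (Sx \ insert v Y0).card = Sx.card - (h + 1) := by
      rw [card_sdiff_of_subset hB, card_insert_of_notMem hvY0, hY0c]
    rw [sum_insert hvY0] at h1
    rw [h3] at h2
    have h4 : (Sx.card - (h + 1)) ^ 2 ≤ (2 * s - h) ^ 2 := Nat.pow_le_pow_left (by omega) 2
    have h5 : 2 * E2 G (Sx \ insert v Y0) ≤ (2 * s - h) ^ 2 := h2.trans h4
    have h6 : h ≤ 2 * s := by omega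
    zify [h6] at h5
    have h7 : (E2 G (Sx \ insert v Y0) : ℤ) ≤ (2 * (s : ℤ) - h) ^ 2 / 2 := by
      rw [Int.le_ediv_iff_mul_le (by norm_num)]
      linarith
    zify at h1 hx hdv2
    linarith
  -- the three sets are disjoint
  have hzD : z ∉ D := by
    intro hz
    have h1 := hBS.nbz
    have : x ∈ nb G (nb G S0 v) z := by rw [h1]; exact mem_insert_self _ _
    have h2 : z ∈ nb G (nb G S0 v) z := by rw [h1]; exact mem_insert_of_mem hz
    exact G.loopless.irrefl z (mem_nb.mp h2).2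
  have hxW : Disjoint Sx W := by
    rw [disjoint_left]
    intro a ha haW
    have h1 : a ∈ nb G (nb G S0 v) x := mem_nb.mpr ⟨hBS.WS haW, (mem_nb.mp ha).2⟩
    rw [hBS.nbx, mem_insert] at h1
    rcases h1 with h1 | h1
    · exact hBS.zW (h1 ▸ haW)
    · exact (disjoint_left.mp hBS.WC) haW h1
  have hxD : Disjoint Sx D := by
    rw [disjoint_left]
    intro a ha haD
    have h1 : a ∈ nb G (nb G S0 v) x := mem_nb.mpr ⟨hBS.DS haD, (mem_nb.mp ha).2⟩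
    rw [hBS.nbx, mem_insert] at h1
    rcases h1 with h1 | h1
    · exact hzD (h1 ▸ haD)
    · exact (disjoint_left.mp hBS.CD) h1 haD
  have hpt : ∀ y ∈ Y0, (dg G Sx y : ℤ) + dg G W y + dg G D y ≤ 2 * s + 1 := by
    intro y hy
    have hyS0 : y ∈ S0 := (hYmem y (hY0Y hy)).1
    have hdisj : Disjoint (Sx ∪ W) D := disjoint_union_left.mpr ⟨hxD, hBS.WD⟩
    have h1 : dg G ((Sx ∪ W) ∪ D) y = dg G Sx y + dg G W y + dg G D y := by
      rw [dg_union hdisj, dg_union hxW]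
    have h2 : (Sx ∪ W) ∪ D ⊆ S0 := by
      refine union_subset (union_subset (nb_subset _ _) ?_) ?_
      · exact hBS.WS.trans (nb_subset _ _)
      · exact hBS.DS.trans (nb_subset _ _)
    have h3 := dg_mono (G := G) h2 y
    have h4 : dg G S0 y ≤ 2 * s + 1 := hdeg y hyS0
    rw [h1] at h3
    exact_mod_cast h3.trans h4
  have hsum : (∑ y ∈ Y0, (dg G Sx y : ℤ)) + (∑ y ∈ Y0, (dg G W y : ℤ)) +
      (∑ y ∈ Y0, (dg G D y : ℤ)) ≤ h * (2 * s + 1) := by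
    rw [← sum_add_distrib, ← sum_add_distrib]
    calc ∑ y ∈ Y0, ((dg G Sx y : ℤ) + dg G W y + dg G D y) ≤ ∑ _y ∈ Y0, (2 * (s : ℤ) + 1) :=
          sum_le_sum hpt
      _ = _ := by rw [sum_const, hY0c, nsmul_eq_mul]
  rw [sum_sub_distrib, sum_const, hY0c, nsmul_eq_mul] at hL1w hL1γ0
  have hDs : (s : ℤ) ≤ 2 * D.card := by
    have h1 := hBS.cardCD
    have h2 : s ≤ 2 * D.card := by omega
    exact_mod_cast h2
  have hWs : (W.card : ℤ) = s - 1 := by linarith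
  have hhz1 : (5 : ℤ) * h ≤ 2 * s := by exact_mod_cast hh1
  have hhz2 : (2 : ℤ) * s ≤ 5 * h + 4 := by exact_mod_cast hh2
  have hsz : (1200 : ℤ) ≤ s := by exact_mod_cast hs
  have hdivb : (2 * (s : ℤ) - h) ^ 2 / 2 * 2 ≤ (2 * (s : ℤ) - h) ^ 2 := Int.ediv_mul_le _ (by norm_num)
  rw [hWs] at hL1γ0
  set A1 := ∑ y ∈ Y0, (dg G Sx y : ℤ)
  set A2 := ∑ y ∈ Y0, (dg G W y : ℤ)
  set A3 := ∑ y ∈ Y0, (dg G D y : ℤ)
  set Q := (2 * (s : ℤ) - h) ^ 2 / 2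
  have hh0 : (0 : ℤ) ≤ h := by positivity
  have hDh : (h : ℤ) * s ≤ h * (2 * D.card) := mul_le_mul_of_nonneg_left hDs hh0
  -- 4 A1 ≥ 4 s² - 14 - 2(s+2) - (2s - h)²
  have e1 : 4 * (s : ℤ) ^ 2 - 14 - 2 * (s + 2) - (2 * (s : ℤ) - h) ^ 2 ≤ 4 * A1 := by linarith
  have e2 : 15 * ((h : ℤ) * (s - 1)) - ((s : ℤ) ^ 2 + 150 * s + 45) ≤ 15 * A2 := by linarith
  have e3 : 15 * ((h : ℤ) * s) - 2 * ((s : ℤ) ^ 2 + 150 * s + 45) ≤ 30 * A3 := by linarith
  -- combine: 60 (A1 + A2 + A3) ≤ 60 h (2 s + 1)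
  have e4 : 15 * (4 * (s : ℤ) ^ 2 - 14 - 2 * (s + 2) - (2 * (s : ℤ) - h) ^ 2) +
      4 * (15 * ((h : ℤ) * (s - 1)) - ((s : ℤ) ^ 2 + 150 * s + 45)) +
      2 * (15 * ((h : ℤ) * s) - 2 * ((s : ℤ) ^ 2 + 150 * s + 45)) ≤ 60 * (h * (2 * s + 1)) := by
    linarith
  -- i.e. 30 h s - 15 h² - 120 h - 30 s - 270 - 8 s² - 1200 s - 240 ≤ 0
  nlinarith [mul_nonneg hh0 (show (0 : ℤ) ≤ 2 * s - 5 * h by linarith),
    mul_nonneg (show (0 : ℤ) ≤ 5 * h + 4 - 2 * s by linarith) (show (0 : ℤ) ≤ (s : ℤ) by linarith)]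

end H57E32
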