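import Mathlib

/-!
Definitions: number of cliques, the complete split graph, allowed graphs, the extremal function.
-/

namespace H57E32

/-- `k^r(G)`: the number of `r`-cliques of `G` -/
noncomputable def kc {V : Type*} (r : ℕ) (G : SimpleGraph V) : ℕ :=
  {A : Finset V | G.IsNClique r A}.ncard

/-- the complete split graph `K_u ∨ I_m`: a `u`-clique, an independent set of size `m`, and all
edges between them -/
def splitGraph (u m : ℕ) : SimpleGraph (Fin u ⊕ Fin m) where
  Adj a b := a ≠ b ∧ (a.isLeft = true ∨ b.isLeft = true)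
  symm := ⟨fun _ _ h => ⟨h.1.symm, h.2.symm⟩⟩
  loopless := ⟨fun _ h => h.1 rfl⟩

/-- `G` contains no member of `{K_u ∨ I_{Δ+1}, K_{ω+1}}` as a subgraph -/
def Allowed {V : Type*} (u Δ ω : ℕ) (G : SimpleGraph V) : Prop :=
  (splitGraph u (Δ + 1)).Free G ∧ (⊤ : SimpleGraph (Fin (ω + 1))).Free G

/-- `ex_u(p, K_t, {K_u ∨ I_{Δ+1}, K_{ω+1}})` -/
noncomputable def exK (u t Δ ω p : ℕ) : ℕ :=
  sSup {N : ℕ | ∃ (m : ℕ) (G : SimpleGraph (Fin m)), Allowed u Δ ω G ∧ kc u G = p ∧ kc t G = N}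

end H57E32
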