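import Pool.Agent.H57.E32.Upper
import Pool.Agent.H57.E32.Def0

/-!
Translation of the definitions into the language of common neighbourhoods.
-/

namespace H57E32

open Finset

/-- the common neighbours of `A` -/
def cns {V : Type*} (G : SimpleGraph V) (A : Finset V) : Set V := {v | ∀ a ∈ A, G.Adj a v}

variable {V : Type*} {G : SimpleGraph V}

lemma not_mem_of_mem_cns {A : Finset V} {v : V} (h : v ∈ cns G A) : v ∉ A := by
  intro hv
  exact G.loopless.irrefl v (h v hv)

/-- a graph without `K_u ∨ I_m` -/
lemma splitFree_iff [Finite V] {u m : ℕ} :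
    (splitGraph u m).Free G ↔ ∀ A, G.IsNClique u A → (cns G A).ncard < m := by
  classical
  constructor
  · intro hfree A hA
    by_contra hcon
    push Not at hcon
    apply hfree
    have hAc : Fintype.card A = u := by simpa using hA.card_eq
    let e : Fin u ≃ A := (Fintype.equivFinOfCardEq hAc).symm
    obtain ⟨B, hB, hBc⟩ := Set.exists_subset_card_eq hcon
    have hBfin : B.Finite := Set.toFinite B
    have hBc' : Nat.card B = m := hBc
    have : Finite B := hBfin
    let e' : Fin m ≃ B := (Finite.equivFinOfCardEq hBc').symm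
    let f : Fin u ⊕ Fin m → V := Sum.elim (fun i => (e i : V)) (fun j => (e' j : V))
    have hf : ∀ a b, (splitGraph u m).Adj a b → G.Adj (f a) (f b) := by
      rintro (i | i) (j | j) hab
      · have hij : i ≠ j := fun h => hab.1 (by rw [h])
        exact hA.1 (e i).2 (e j).2 (fun h => hij (e.injective (Subtype.ext h)))
      · exact hB (e' j).2 (e i) (e i).2
      · exact (hB (e' i).2 (e j) (e j).2).symm
      · rcases hab.2 with h | h <;> simp at h
    refine ⟨⟨⟨f, fun {a b} h => hf a b h⟩, ?_⟩⟩
    rintro (i | i) (j | j) hij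
    · have : e i = e j := Subtype.ext hij
      rw [e.injective this]
    · exfalso
      have h1 : (e i : V) = (e' j : V) := hij
      have h2 := hB (e' j).2
      exact not_mem_of_mem_cns h2 (h1 ▸ (e i).2)
    · exfalso
      have h1 : (e' i : V) = (e j : V) := hij
      have h2 := hB (e' i).2
      exact not_mem_of_mem_cns h2 (h1 ▸ (e j).2)
    · have : e' i = e' j := Subtype.ext hij
      rw [e'.injective this]
  · intro h hcon
    obtain ⟨f⟩ := hcon
    have hinj : Function.Injective f.toHom := f.injective'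
    set A : Finset V := univ.image (fun i : Fin u => f.toHom (Sum.inl i)) with hA
    have hAcl : G.IsNClique u A := by
      rw [SimpleGraph.isNClique_iff]
      constructor
      · intro a ha b hb hab
        rw [hA, mem_coe, mem_image] at ha hb
        obtain ⟨i, _, rfl⟩ := ha
        obtain ⟨j, _, rfl⟩ := hb
        apply f.toHom.map_adj
        refine ⟨fun h => hab (by rw [h]), Or.inl rfl⟩
      · rw [hA, card_image_of_injective, card_univ, Fintype.card_fin]
        intro i j hij
        exact Sum.inl_injective (hinj hij)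
    have hlt := h A hAcl
    have hle : m ≤ (cns G A).ncard := by
      have h1 : (Set.range (fun j : Fin m => f.toHom (Sum.inr j))) ⊆ cns G A := by
        rintro _ ⟨j, rfl⟩
        intro a ha
        rw [hA, mem_image] at ha
        obtain ⟨i, _, rfl⟩ := ha
        apply f.toHom.map_adj
        exact ⟨Sum.inl_ne_inr, Or.inl rfl⟩
      have h2 : (Set.range (fun j : Fin m => f.toHom (Sum.inr j))).ncard = m := by
        rw [← Set.image_univ, Set.ncard_image_of_injective]
        · rw [Set.ncard_univ, Nat.card_eq_fintype_card, Fintype.card_fin]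
        · intro i j hij
          exact Sum.inr_injective (hinj hij)
      rw [← h2]
      exact Set.ncard_le_ncard h1 (Set.toFinite _)
    omega

lemma allowed_iff [Finite V] {u Δ ω : ℕ} :
    Allowed u Δ ω G ↔ (∀ A, G.IsNClique u A → (cns G A).ncard ≤ Δ) ∧ G.CliqueFree (ω + 1) := by
  unfold Allowed
  rw [splitFree_iff]
  simp only [Nat.lt_succ_iff]
  have h := SimpleGraph.cliqueFree_iff_top_free (G := G) (β := Fin (ω + 1))
  rw [Fintype.card_fin] at h
  rw [h]

lemma kc_eq [Fintype V] [DecidableEq V] [DecidableRel G.Adj] (r : ℕ) :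
    kc r G = (G.cliqueFinset r).card := by
  unfold kc
  rw [← Set.ncard_coe_finset, SimpleGraph.coe_cliqueFinset]
  rfl

lemma cns_ncard [Fintype V] [DecidableEq V] [DecidableRel G.Adj] (A : Finset V) :
    (cns G A).ncard = (cn G A).card := by
  rw [← Set.ncard_coe_finset]
  congr 1
  ext v
  simp [cns, mem_cn]

theorem upper_kc [Finite V] {s u : ℕ} (hu : 1 ≤ u) (hs : 1200 ≤ s)
    (hG : Allowed u (2 * s + 1) (u + 2) G) :
    ((u : ℤ) + 1) * ((u + 2) * s + u) * (kc (u + 2) G : ℤ) ≤
      2 * (s : ℤ) ^ 2 * (s + 1) * (kc u G : ℤ) := by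
  classical
  have := Fintype.ofFinite V
  obtain ⟨u, rfl⟩ := Nat.exists_eq_add_of_le' hu
  rw [allowed_iff] at hG
  rw [kc_eq, kc_eq]
  have h := upper_main (G := G) (s := s) (u := u) hs ?_ hG.2
  · convert h using 2
  · intro A hA
    rw [← cns_ncard]
    rw [SimpleGraph.mem_cliqueFinset_iff] at hA
    exact hG.1 A hA

theorem upper_kc' [Finite V] {s u : ℕ} (hu : 1 ≤ u) (hs : 1 ≤ s)
    (hG : Allowed u (2 * s + 1) (u + 2) G) :
    ((u : ℤ) + 1) * ((u + 2) * s + u) * (kc (u + 2) G : ℤ) ≤
      2 * ((s : ℤ) ^ 2 + 1) * (s + 1) * (kc u G : ℤ) := by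
  classical
  have := Fintype.ofFinite V
  obtain ⟨u, rfl⟩ := Nat.exists_eq_add_of_le' hu
  rw [allowed_iff] at hG
  rw [kc_eq, kc_eq]
  have h := upper_crude (G := G) (s := s) (u := u) hs ?_ hG.2
  · convert h using 2
  · intro A hA
    rw [← cns_ncard]
    rw [SimpleGraph.mem_cliqueFinset_iff] at hA
    exact hG.1 A hA

end H57E32
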