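import Pool.Agent.H57.E32.Turan

/-!
The Turan graph and the limit.
-/

namespace H57E32

open Finset Filter Topology

/-- the Turan graph `T_{u+2}((u+2)s+1)` -/
abbrev TL (u s : ℕ) : SimpleGraph (Fin ((u + 2) * s + 1)) :=
  SimpleGraph.turanGraph ((u + 2) * s + 1) (u + 2)

/-- the classes of the Turan graph -/
def tc (u s : ℕ) (v : Fin ((u + 2) * s + 1)) : Fin (u + 1 + 1) :=
  ⟨v.val % (u + 2), Nat.mod_lt _ (by omega)⟩

lemma tl_adj (u s : ℕ) (v w : Fin ((u + 2) * s + 1)) :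
    (TL u s).Adj v w ↔ tc u s v ≠ tc u s w := by
  simp [TL, SimpleGraph.turanGraph, tc]

lemma tc_card (u s : ℕ) (j : Fin (u + 1 + 1)) :
    (cls (tc u s) j).card = s + if j = 0 then 1 else 0 := by
  have h1 : (cls (tc u s) j).card =
      ((range ((u + 2) * s + 1)).filter (fun x => x ≡ j.val [MOD (u + 2)])).card := by
    apply card_bij (fun v _ => v.val)
    · intro v hv
      have h2 : tc u s v = j := (mem_filter.mp hv).2
      rw [mem_filter, mem_range]
      refine ⟨v.2, ?_⟩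
      have h3 : v.val % (u + 2) = j.val := by rw [← h2]; rfl
      unfold Nat.ModEq
      rw [h3, Nat.mod_eq_of_lt j.2]
    · intro v _ w _ h
      exact Fin.ext h
    · intro x hx
      rw [mem_filter, mem_range] at hx
      refine ⟨⟨x, hx.1⟩, mem_filter.mpr ⟨mem_univ _, ?_⟩, rfl⟩
      apply Fin.ext
      have h3 := hx.2
      unfold Nat.ModEq at h3
      rw [Nat.mod_eq_of_lt j.2] at h3
      exact h3
  rw [h1, ← Nat.count_eq_card_filter_range, Nat.count_modEq_card _ (by omega)]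
  have h4 : ((u + 2) * s + 1) / (u + 2) = s := by
    rw [Nat.mul_add_div (by omega), Nat.div_eq_of_lt (by omega : 1 < u + 2), add_zero]
  have h5 : ((u + 2) * s + 1) % (u + 2) = 1 := by
    rw [Nat.mul_add_mod, Nat.mod_eq_of_lt (by omega : 1 < u + 2)]
  rw [h4, h5, Nat.mod_eq_of_lt j.2]
  congr 1
  by_cases hj : j = 0
  · subst hj; simp
  · have h6 : j.val ≠ 0 := fun h => hj (Fin.ext h)
    rw [if_neg (by omega), if_neg hj]

lemma tl_kc_top (u s : ℕ) : kc (u + 2) (TL u s) = (s + 1) * s ^ (u + 1) := by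
  rw [kc_multi (tc u s) (tl_adj u s)]
  rw [sum_prod_sizes (r := u + 1) (k := u + 1) (s := s) (fun j => (cls (tc u s) j).card)
    (by rw [tc_card]; simp) (by intro j hj; rw [tc_card]; simp [hj])]
  simp

lemma tl_kc_u (u s : ℕ) : 2 * kc (u + 1) (TL (u + 1) s) =
    (u + 2) * s ^ u * ((u + 3) * s + (u + 1)) := by
  rw [kc_multi (tc (u + 1) s) (tl_adj (u + 1) s)]
  rw [sum_prod_sizes (r := u + 1 + 1) (k := u) (s := s) (fun j => (cls (tc (u + 1) s) j).card)
    (by rw [tc_card]; simp) (by intro j hj; rw [tc_card]; simp [hj])]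
  have h1 : (u + 1 + 1).choose (u + 1) = u + 2 := by
    rw [Nat.choose_succ_self_right]
  have h2 : 2 * (u + 1 + 1).choose u = (u + 2) * (u + 1) := by
    have h3 : (u + 1 + 1).choose u = (u + 2).choose 2 := by
      rw [← Nat.choose_symm_of_eq_add (by omega : u + 1 + 1 = 2 + u)]
    rw [h3, Nat.choose_two_right, Nat.mul_div_cancel' ]
    · rfl
    · have := Nat.even_mul_succ_self (u + 1)
      rw [mul_comm] at this
      exact this.two_dvd
  rw [h1]
  calc 2 * ((u + 2) * s ^ (u + 1) + (u + 1 + 1).choose u * ((s + 1) * s ^ u))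
      = 2 * ((u + 2) * s ^ (u + 1)) + (2 * (u + 1 + 1).choose u) * ((s + 1) * s ^ u) := by ring
    _ = _ := by rw [h2]; ring

lemma tl_relation {u : ℕ} (hu : 1 ≤ u) (s : ℕ) :
    (u + 1) * ((u + 2) * s + u) * kc (u + 2) (TL u s) = 2 * s ^ 2 * (s + 1) * kc u (TL u s) := by
  obtain ⟨u, rfl⟩ := Nat.exists_eq_add_of_le' hu
  rw [tl_kc_top]
  have h := tl_kc_u u s
  calc (u + 1 + 1) * ((u + 1 + 2) * s + (u + 1)) * ((s + 1) * s ^ (u + 1 + 1))
      = s ^ 2 * (s + 1) * ((u + 2) * s ^ u * ((u + 3) * s + (u + 1))) := by ring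
    _ = s ^ 2 * (s + 1) * (2 * kc (u + 1) (TL (u + 1) s)) := by rw [h]
    _ = _ := by ring

lemma tl_kc_u_pos {u : ℕ} (hu : 1 ≤ u) {s : ℕ} (hs : 1 ≤ s) : 0 < kc u (TL u s) := by
  obtain ⟨u, rfl⟩ := Nat.exists_eq_add_of_le' hu
  have h := tl_kc_u u s
  have h1 : 0 < (u + 2) * s ^ u * ((u + 3) * s + (u + 1)) := by positivity
  omega

lemma tl_allowed (u s : ℕ) : Allowed u (2 * s + 1) (u + 2) (TL u s) := by
  classical
  rw [allowed_iff]
  refine ⟨?_, SimpleGraph.turanGraph_cliqueFree (by omega)⟩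
  intro A hA
  rw [cns_ncard]
  have hinj : Set.InjOn (tc u s) A := by
    intro x hx y hy hxy
    by_contra hne
    exact (tl_adj u s x y).mp (hA.1 hx hy hne) hxy
  set B := A.biUnion (fun a => cls (tc u s) (tc u s a)) with hB
  have hBc : u * s ≤ B.card := by
    rw [hB, card_biUnion]
    · calc u * s = ∑ _a ∈ A, s := by rw [sum_const, hA.card_eq, smul_eq_mul]
        _ ≤ _ := sum_le_sum (fun a _ => by rw [tc_card]; omega)
    · intro x hx y hy hxy
      change Disjoint (cls (tc u s) (tc u s x)) (cls (tc u s) (tc u s y))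
      rw [disjoint_left]
      intro v hv hv'
      exact hxy (hinj hx hy ((mem_filter.mp hv).2.symm.trans (mem_filter.mp hv').2))
  have hd : Disjoint (cn (TL u s) A) B := by
    rw [disjoint_left]
    intro v hv hv'
    rw [hB, mem_biUnion] at hv'
    obtain ⟨a, ha, hva⟩ := hv'
    have h1 := mem_cn.mp hv a ha
    rw [tl_adj] at h1
    exact h1 (mem_filter.mp hva).2.symm
  have h2 := card_union_of_disjoint hd
  have h3 := card_le_univ (cn (TL u s) A ∪ B)
  rw [h2, Fintype.card_fin] at h3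
  have h4 : (u + 2) * s = u * s + 2 * s := by ring
  omega

/-- the set of achievable values is bounded and nonempty -/
lemma exK_mem {u s : ℕ} (hu : 1 ≤ u) (hs : 1 ≤ s) (p : ℕ) :
    Ach u (u + 2) (2 * s + 1) (u + 2) p (exK u (u + 2) (2 * s + 1) (u + 2) p) := by
  have hne : {N : ℕ | ∃ (m : ℕ) (G : SimpleGraph (Fin m)), Allowed u (2 * s + 1) (u + 2) G ∧
      kc u G = p ∧ kc (u + 2) G = N}.Nonempty := by
    have h := (Ach.one (u := u) (t := u + 2) (Δ := 2 * s + 1) (ω := u + 2) (by omega)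
      (by omega)).mul hu (by omega) p
    rw [mul_one] at h
    exact ⟨_, h⟩
  have hbdd : BddAbove {N : ℕ | ∃ (m : ℕ) (G : SimpleGraph (Fin m)),
      Allowed u (2 * s + 1) (u + 2) G ∧ kc u G = p ∧ kc (u + 2) G = N} := by
    refine ⟨2 * (s ^ 2 + 1) * (s + 1) * p, ?_⟩
    rintro N ⟨m, G, hG, hp, hN⟩
    have h := upper_kc' hu hs hG
    rw [hp, hN] at h
    have h1 : (u + 1) * ((u + 2) * s + u) * N ≤ 2 * (s ^ 2 + 1) * (s + 1) * p := by
      exact_mod_cast h
    have h2 : 1 ≤ (u + 1) * ((u + 2) * s + u) := Nat.succ_le_of_lt (by positivity)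
    calc N = 1 * N := (one_mul N).symm
      _ ≤ (u + 1) * ((u + 2) * s + u) * N := Nat.mul_le_mul_right N h2
      _ ≤ _ := h1
  exact Nat.sSup_mem hne hbdd

lemma le_exK {u s : ℕ} (hu : 1 ≤ u) (hs : 1 ≤ s) {p N : ℕ}
    (h : Ach u (u + 2) (2 * s + 1) (u + 2) p N) :
    N ≤ exK u (u + 2) (2 * s + 1) (u + 2) p := by
  have hbdd : BddAbove {N : ℕ | ∃ (m : ℕ) (G : SimpleGraph (Fin m)),
      Allowed u (2 * s + 1) (u + 2) G ∧ kc u G = p ∧ kc (u + 2) G = N} := by
    refine ⟨2 * (s ^ 2 + 1) * (s + 1) * p, ?_⟩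
    rintro N ⟨m, G, hG, hp, hN⟩
    have h := upper_kc' hu hs hG
    rw [hp, hN] at h
    have h1 : (u + 1) * ((u + 2) * s + u) * N ≤ 2 * (s ^ 2 + 1) * (s + 1) * p := by
      exact_mod_cast h
    have h2 : 1 ≤ (u + 1) * ((u + 2) * s + u) := Nat.succ_le_of_lt (by positivity)
    calc N = 1 * N := (one_mul N).symm
      _ ≤ (u + 1) * ((u + 2) * s + u) * N := Nat.mul_le_mul_right N h2
      _ ≤ _ := h1
  exact le_csSup hbdd h

/-- the density -/
noncomputable def rho (u s : ℕ) : ℝ :=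
  2 * (s : ℝ) ^ 2 * (s + 1) / ((u + 1) * ((u + 2) * s + u))

lemma den_pos (u : ℕ) {s : ℕ} (hs : 1 ≤ s) : (0 : ℝ) < ((u : ℝ) + 1) * ((u + 2) * s + u) := by
  have : (0 : ℝ) < s := by exact_mod_cast hs
  positivity

lemma tl_density {u s : ℕ} (hu : 1 ≤ u) (hs : 1 ≤ s) :
    (kc (u + 2) (TL u s) : ℝ) = rho u s * kc u (TL u s) := by
  have h := tl_relation hu s
  have h1 : ((u : ℝ) + 1) * ((u + 2) * s + u) * kc (u + 2) (TL u s) =
      2 * (s : ℝ) ^ 2 * (s + 1) * kc u (TL u s) := by exact_mod_cast h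
  have h2 := den_pos u hs
  unfold rho
  rw [div_mul_eq_mul_div, eq_div_iff h2.ne']
  linarith

lemma exK_le {u s : ℕ} (hu : 1 ≤ u) (hs : 1200 ≤ s) (p : ℕ) :
    (exK u (u + 2) (2 * s + 1) (u + 2) p : ℝ) ≤ rho u s * p := by
  obtain ⟨m, G, hG, hp, hN⟩ := exK_mem hu (by omega : 1 ≤ s) p
  have h := upper_kc hu hs hG
  rw [hp, hN] at h
  have h1 : ((u : ℝ) + 1) * ((u + 2) * s + u) * (exK u (u + 2) (2 * s + 1) (u + 2) p : ℝ) ≤
      2 * (s : ℝ) ^ 2 * (s + 1) * p := by exact_mod_cast h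
  have h2 := den_pos u (by omega : 1 ≤ s)
  unfold rho
  rw [div_mul_eq_mul_div, le_div_iff₀ h2]
  linarith

lemma exK_le' {u s : ℕ} (hu : 1 ≤ u) (hs : 1 ≤ s) (p : ℕ) :
    (exK u (u + 2) (2 * s + 1) (u + 2) p : ℝ) ≤ (1 + 1 / (s : ℝ) ^ 2) * rho u s * p := by
  obtain ⟨m, G, hG, hp, hN⟩ := exK_mem hu hs p
  have h := upper_kc' hu hs hG
  rw [hp, hN] at h
  have h1 : ((u : ℝ) + 1) * ((u + 2) * s + u) * (exK u (u + 2) (2 * s + 1) (u + 2) p : ℝ) ≤
      2 * ((s : ℝ) ^ 2 + 1) * (s + 1) * p := by exact_mod_cast h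
  have h2 := den_pos u hs
  have h3 : (0 : ℝ) < s := by exact_mod_cast hs
  have h4 : (1 + 1 / (s : ℝ) ^ 2) * rho u s * p =
      2 * ((s : ℝ) ^ 2 + 1) * (s + 1) * p / (((u : ℝ) + 1) * ((u + 2) * s + u)) := by
    unfold rho
    field_simp
  rw [h4, le_div_iff₀ h2]
  linarith

lemma exK_mul {u s : ℕ} (hu : 1 ≤ u) (hs : 1200 ≤ s) (q : ℕ) :
    exK u (u + 2) (2 * s + 1) (u + 2) (q * kc u (TL u s)) = q * kc (u + 2) (TL u s) := by
  apply le_antisymm
  · have h := exK_le hu hs (q * kc u (TL u s))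
    have h1 := tl_density hu (by omega : 1 ≤ s)
    have h2 : (exK u (u + 2) (2 * s + 1) (u + 2) (q * kc u (TL u s)) : ℝ) ≤
        ((q * kc (u + 2) (TL u s) : ℕ) : ℝ) := by
      push_cast
      rw [h1]
      refine h.trans (le_of_eq ?_)
      push_cast
      ring
    exact_mod_cast h2
  · apply le_exK hu (by omega)
    exact Ach.mul hu (by omega) (ach_of _ (tl_allowed u s)) q

lemma exK_ge {u s : ℕ} (hu : 1 ≤ u) (hs : 1 ≤ s) (p : ℕ) :
    rho u s * p - kc (u + 2) (TL u s) ≤ (exK u (u + 2) (2 * s + 1) (u + 2) p : ℝ) := by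
  have h := le_exK hu hs (Ach.div hu (by omega) (by omega) (ach_of (t := u + 2) _ (tl_allowed u s)) p)
  have hpos := tl_kc_u_pos hu hs
  set k := kc u (TL u s) with hk
  set N := kc (u + 2) (TL u s) with hN
  have h1 : (N : ℝ) = rho u s * k := tl_density hu hs
  have h2 : (p : ℝ) < ((p / k : ℕ) + 1) * k := by
    have := Nat.lt_div_mul_add (a := p) hpos
    have h3 : p < (p / k + 1) * k := by rw [add_mul, one_mul]; exact this
    exact_mod_cast h3
  have h3 : (((p / k) * N : ℕ) : ℝ) ≤ (exK u (u + 2) (2 * s + 1) (u + 2) p : ℝ) := by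
    exact_mod_cast h
  have h4 : 0 ≤ rho u s := by
    unfold rho
    have := den_pos u hs
    positivity
  have h5 : rho u s * p ≤ rho u s * (((p / k : ℕ) + 1) * k) :=
    mul_le_mul_of_nonneg_left h2.le h4
  push_cast at h3
  rw [h1] at h3 ⊢
  calc rho u s * p - rho u s * k ≤ rho u s * (((p / k : ℕ) + 1) * k) - rho u s * k := by linarith
    _ = (p / k : ℕ) * (rho u s * k) := by ring
    _ ≤ _ := h3

theorem tendsto_exK {u s : ℕ} (hu : 1 ≤ u) (hs : 1200 ≤ s) :
    Tendsto (fun p : ℕ => (exK u (u + 2) (2 * s + 1) (u + 2) p : ℝ) / p) atTop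
      (𝓝 (rho u s)) := by
  have hlow : Tendsto (fun p : ℕ => rho u s - (kc (u + 2) (TL u s) : ℝ) / p) atTop
      (𝓝 (rho u s - 0)) :=
    tendsto_const_nhds.sub (tendsto_const_div_atTop_nhds_zero_nat _)
  rw [sub_zero] at hlow
  refine tendsto_of_tendsto_of_tendsto_of_le_of_le' hlow tendsto_const_nhds ?_ ?_
  · filter_upwards [eventually_gt_atTop 0] with p hp
    have hp' : (0 : ℝ) < p := by exact_mod_cast hp
    have h := exK_ge hu (by omega : 1 ≤ s) p
    rw [le_div_iff₀ hp', sub_mul, div_mul_cancel₀ _ hp'.ne']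
    exact h
  · filter_upwards [eventually_gt_atTop 0] with p hp
    have hp' : (0 : ℝ) < p := by exact_mod_cast hp
    rw [div_le_iff₀ hp']
    exact exK_le hu hs p

end H57E32
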