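import Pool.Agent.H57.E32.Basic

/-!
The local inequality for triangle-free sets with at most `2s+1` vertices.
-/

namespace H57E32

open Finset

variable {V : Type*} [DecidableEq V] {G : SimpleGraph V} [DecidableRel G.Adj]

/-- the exceptional structure -/
structure BS (G : SimpleGraph V) [DecidableRel G.Adj] (s : ℕ) (S W C D : Finset V)
    (x z : V) : Prop where
  cardW : W.card + 1 = s
  cardCD : C.card + D.card = s
  neC : C.Nonempty
  neD : D.Nonempty
  xS : x ∈ S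
  zS : z ∈ S
  WS : W ⊆ S
  CS : C ⊆ S
  DS : D ⊆ S
  xW : x ∉ W
  zW : z ∉ W
  zC : z ∉ C
  xD : x ∉ D
  WC : Disjoint W C
  WD : Disjoint W D
  CD : Disjoint C D
  nbW : ∀ w ∈ W, nb G S w = C ∪ D
  nbC : ∀ c ∈ C, nb G S c = insert x W
  nbD : ∀ d ∈ D, nb G S d = insert z W
  nbx : nb G S x = insert z C
  nbz : nb G S z = insert x D

lemma BS.symm {s : ℕ} {S W C D : Finset V} {x z : V} (h : BS G s S W C D x z) :
    BS G s S W D C z x where
  cardW := h.cardW
  cardCD := by rw [add_comm]; exact h.cardCD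
  neC := h.neD
  neD := h.neC
  xS := h.zS
  zS := h.xS
  WS := h.WS
  CS := h.DS
  DS := h.CS
  xW := h.zW
  zW := h.xW
  zC := h.xD
  xD := h.zC
  WC := h.WD
  WD := h.WC
  CD := h.CD.symm
  nbW := fun w hw => by rw [h.nbW w hw, union_comm]
  nbC := h.nbD
  nbD := h.nbC
  nbx := h.nbz
  nbz := h.nbx

/-- building the exceptional structure, first case: one leaf -/
lemma bs_case1 {s : ℕ} {A Q C T : Finset V} {a0 a1 : V}
    (hAQ : Disjoint A Q) (hQ : Ind G Q)
    (ha0 : a0 ∈ A) (ha1 : a1 ∈ A) (hne : a0 ≠ a1)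
    (hT : T = (A.erase a0).erase a1)
    (hAdjA : ∀ a ∈ A, ∀ b ∈ A, (G.Adj a b ↔ (a = a0 ∧ b = a1) ∨ (a = a1 ∧ b = a0)))
    (hTQ : ∀ a ∈ T, ∀ q ∈ Q, G.Adj a q)
    (hCQ : C ⊆ Q)
    (hC : ∀ q ∈ Q, (G.Adj a0 q ↔ q ∈ C))
    (hC1 : ∀ q ∈ Q, (G.Adj a1 q ↔ q ∉ C))
    (hcA : A.card = s + 1) (hcQ : Q.card = s)
    (hCne : C.Nonempty) (hDne : (Q \ C).Nonempty) :
    BS G s (A ∪ Q) T C (Q \ C) a0 a1 := by
  have hTA : T ⊆ A := by
    rw [hT]; exact (erase_subset _ _).trans (erase_subset _ _)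
  have hTmem : ∀ a, a ∈ T ↔ a ∈ A ∧ a ≠ a0 ∧ a ≠ a1 := by
    intro a; rw [hT]; simp only [mem_erase]; tauto
  have hdis : ∀ a ∈ A, a ∉ Q := fun a ha hq => (disjoint_left.mp hAQ) ha hq
  have hcT : T.card + 1 = s := by
    rw [hT, card_erase_of_mem, card_erase_of_mem ha0, hcA]
    · have : 2 ≤ A.card := by
        have : ({a0, a1} : Finset V) ⊆ A := by
          intro b hb; simp only [mem_insert, mem_singleton] at hb
          rcases hb with rfl | rfl <;> assumption
        have h2 := card_le_card this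
        rwa [card_pair hne] at h2
      omega
    · rw [mem_erase]; exact ⟨hne.symm, ha1⟩
  refine ⟨hcT, ?_, hCne, hDne, ?_, ?_, ?_, ?_, ?_, ?_, ?_, ?_, ?_, ?_, ?_, ?_, ?_, ?_, ?_, ?_, ?_⟩
  · rw [card_sdiff_of_subset hCQ, hcQ]
    have := card_le_card hCQ
    omega
  · exact mem_union_left _ ha0
  · exact mem_union_left _ ha1
  · exact hTA.trans subset_union_left
  · exact hCQ.trans subset_union_right
  · exact sdiff_subset.trans subset_union_right
  · rw [hTmem]; tauto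
  · rw [hTmem]; tauto
  · intro h; exact hdis a1 ha1 (hCQ h)
  · intro h; exact hdis a0 ha0 (sdiff_subset h)
  · exact disjoint_of_subset_left hTA (disjoint_of_subset_right hCQ hAQ)
  · exact disjoint_of_subset_left hTA (disjoint_of_subset_right sdiff_subset hAQ)
  · exact disjoint_sdiff
  · -- nbW
    intro w hw
    have hw' := (hTmem w).mp hw
    ext v
    rw [mem_nb, mem_union, mem_union, mem_sdiff]
    constructor
    · rintro ⟨hv, hwv⟩
      rcases hv with hv | hv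
      · rw [hAdjA w hw'.1 v hv] at hwv
        tauto
      · by_cases h : v ∈ C <;> tauto
    · intro hv
      have hvQ : v ∈ Q := by
        rcases hv with hv | hv
        · exact hCQ hv
        · exact hv.1
      exact ⟨Or.inr hvQ, hTQ w hw v hvQ⟩
  · -- nbC
    intro c hc
    have hcQ' := hCQ hc
    ext v
    rw [mem_nb, mem_union, mem_insert, hTmem]
    constructor
    · rintro ⟨hv, hcv⟩
      rcases hv with hv | hv
      · by_cases h0 : v = a0
        · exact Or.inl h0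
        · by_cases h1 : v = a1
          · subst h1
            exact absurd hc ((hC1 c hcQ').mp hcv.symm)
          · exact Or.inr ⟨hv, h0, h1⟩
      · exact absurd hcv (hQ c hcQ' v hv)
    · rintro (rfl | hv)
      · exact ⟨Or.inl ha0, ((hC c hcQ').mpr hc).symm⟩
      · exact ⟨Or.inl hv.1, (hTQ v ((hTmem v).mpr hv) c hcQ').symm⟩
  · -- nbD
    intro d hd
    rw [mem_sdiff] at hd
    ext v
    rw [mem_nb, mem_union, mem_insert, hTmem]
    constructor
    · rintro ⟨hv, hcv⟩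
      rcases hv with hv | hv
      · by_cases h1 : v = a1
        · exact Or.inl h1
        · by_cases h0 : v = a0
          · subst h0
            exact absurd ((hC d hd.1).mp hcv.symm) hd.2
          · exact Or.inr ⟨hv, h0, h1⟩
      · exact absurd hcv (hQ d hd.1 v hv)
    · rintro (rfl | hv)
      · exact ⟨Or.inl ha1, ((hC1 d hd.1).mpr hd.2).symm⟩
      · exact ⟨Or.inl hv.1, (hTQ v ((hTmem v).mpr hv) d hd.1).symm⟩
  · -- nbx
    ext v
    rw [mem_nb, mem_union, mem_insert]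
    constructor
    · rintro ⟨hv, hav⟩
      rcases hv with hv | hv
      · rw [hAdjA a0 ha0 v hv] at hav
        tauto
      · exact Or.inr ((hC v hv).mp hav)
    · rintro (rfl | hv)
      · exact ⟨Or.inl ha1, (hAdjA a0 ha0 v ha1).mpr (Or.inl ⟨rfl, rfl⟩)⟩
      · exact ⟨Or.inr (hCQ hv), (hC v (hCQ hv)).mpr hv⟩
  · -- nbz
    ext v
    rw [mem_nb, mem_union, mem_insert, mem_sdiff]
    constructor
    · rintro ⟨hv, hav⟩
      rcases hv with hv | hv
      · rw [hAdjA a1 ha1 v hv] at hav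
        tauto
      · exact Or.inr ⟨hv, (hC1 v hv).mp hav⟩
    · rintro (rfl | hv)
      · exact ⟨Or.inl ha0, (hAdjA a1 ha1 v ha0).mpr (Or.inr ⟨rfl, rfl⟩)⟩
      · exact ⟨Or.inr hv.1, (hC1 v hv.1).mpr hv.2⟩

/-- building the exceptional structure, second case: the centre has one neighbour in `Q` -/
lemma bs_case2 {s : ℕ} {A Q R : Finset V} {a0 b0 : V}
    (hAQ : Disjoint A Q) (hQ : Ind G Q)
    (ha0 : a0 ∈ A) (hb0 : b0 ∈ Q)
    (hRA : R ⊆ A) (hRa0 : a0 ∉ R)
    (hAdjA : ∀ a ∈ A, ∀ b ∈ A, (G.Adj a b ↔ (a = a0 ∧ b ∈ R) ∨ (a ∈ R ∧ b = a0)))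
    (hTQ : ∀ a ∈ A, a ≠ a0 → a ∉ R → ∀ q ∈ Q, G.Adj a q)
    (hC : ∀ q ∈ Q, (G.Adj a0 q ↔ q = b0))
    (hR1 : ∀ a ∈ R, ∀ q ∈ Q, (G.Adj a q ↔ q ≠ b0))
    (hcA : A.card = s + 1) (hcQ : Q.card = s)
    (hRne : R.Nonempty) (hDne : ((A.erase a0) \ R).Nonempty) :
    BS G s (A ∪ Q) (Q.erase b0) R ((A.erase a0) \ R) a0 b0 := by
  have hdis : ∀ a ∈ A, a ∉ Q := fun a ha hq => (disjoint_left.mp hAQ) ha hq
  have hRe : R ⊆ A.erase a0 := fun r hr => mem_erase.mpr ⟨fun h => hRa0 (h ▸ hr), hRA hr⟩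
  have hDA : (A.erase a0) \ R ⊆ A := sdiff_subset.trans (erase_subset _ _)
  have hWQ : Q.erase b0 ⊆ Q := erase_subset _ _
  have hDmem : ∀ a, a ∈ (A.erase a0) \ R ↔ a ∈ A ∧ a ≠ a0 ∧ a ∉ R := by
    intro a; rw [mem_sdiff, mem_erase]; tauto
  refine ⟨?_, ?_, hRne, hDne, ?_, ?_, ?_, ?_, ?_, ?_, ?_, ?_, ?_, ?_, ?_, ?_, ?_, ?_, ?_, ?_, ?_⟩
  · rw [card_erase_of_mem hb0, hcQ]
    have : 0 < Q.card := card_pos.mpr ⟨b0, hb0⟩
    omega
  · rw [card_sdiff_of_subset hRe, card_erase_of_mem ha0, hcA]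
    have := card_le_card hRe
    rw [card_erase_of_mem ha0, hcA] at this
    omega
  · exact mem_union_left _ ha0
  · exact mem_union_right _ hb0
  · exact hWQ.trans subset_union_right
  · exact hRA.trans subset_union_left
  · exact hDA.trans subset_union_left
  · intro h; exact hdis a0 ha0 (hWQ h)
  · simp
  · intro h; exact hdis b0 (hRA h) hb0
  · rw [hDmem]; tauto
  · exact (disjoint_of_subset_left hRA (disjoint_of_subset_right hWQ hAQ)).symm
  · exact (disjoint_of_subset_left hDA (disjoint_of_subset_right hWQ hAQ)).symm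
  · exact disjoint_sdiff
  · -- nbW
    intro w hw
    rw [mem_erase] at hw
    ext v
    rw [mem_nb, mem_union, mem_union, hDmem]
    constructor
    · rintro ⟨hv, hwv⟩
      rcases hv with hv | hv
      · by_cases h0 : v = a0
        · subst h0
          exact absurd ((hC w hw.2).mp hwv.symm) hw.1
        · by_cases h : v ∈ R <;> tauto
      · exact absurd hwv (hQ w hw.2 v hv)
    · rintro (hv | hv)
      · exact ⟨Or.inl (hRA hv), ((hR1 v hv w hw.2).mpr hw.1).symm⟩
      · exact ⟨Or.inl hv.1, (hTQ v hv.1 hv.2.1 hv.2.2 w hw.2).symm⟩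
  · -- nbC
    intro c hc
    ext v
    rw [mem_nb, mem_union, mem_insert, mem_erase]
    constructor
    · rintro ⟨hv, hcv⟩
      rcases hv with hv | hv
      · rw [hAdjA c (hRA hc) v hv] at hcv
        rcases hcv with ⟨h, _⟩ | ⟨_, h⟩
        · exact absurd (h ▸ hc) hRa0
        · exact Or.inl h
      · exact Or.inr ⟨(hR1 c hc v hv).mp hcv, hv⟩
    · rintro (rfl | hv)
      · exact ⟨Or.inl ha0, (hAdjA c (hRA hc) v ha0).mpr (Or.inr ⟨hc, rfl⟩)⟩
      · exact ⟨Or.inr hv.2, (hR1 c hc v hv.2).mpr hv.1⟩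
  · -- nbD
    intro d hd
    rw [hDmem] at hd
    ext v
    rw [mem_nb, mem_union, mem_insert, mem_erase]
    constructor
    · rintro ⟨hv, hcv⟩
      rcases hv with hv | hv
      · rw [hAdjA d hd.1 v hv] at hcv
        tauto
      · by_cases h : v = b0
        · exact Or.inl h
        · exact Or.inr ⟨h, hv⟩
    · intro hv
      have hvQ : v ∈ Q := by
        rcases hv with rfl | hv
        · exact hb0
        · exact hv.2
      exact ⟨Or.inr hvQ, hTQ d hd.1 hd.2.1 hd.2.2 v hvQ⟩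
  · -- nbx
    ext v
    rw [mem_nb, mem_union, mem_insert]
    constructor
    · rintro ⟨hv, hav⟩
      rcases hv with hv | hv
      · rw [hAdjA a0 ha0 v hv] at hav
        rcases hav with ⟨_, h⟩ | ⟨h, _⟩
        · exact Or.inr h
        · exact absurd h hRa0
      · exact Or.inl ((hC v hv).mp hav)
    · rintro (rfl | hv)
      · exact ⟨Or.inr hb0, (hC v hb0).mpr rfl⟩
      · exact ⟨Or.inl (hRA hv), (hAdjA a0 ha0 v (hRA hv)).mpr (Or.inl ⟨rfl, hv⟩)⟩
  · -- nbz
    ext v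
    rw [mem_nb, mem_union, mem_insert, hDmem]
    constructor
    · rintro ⟨hv, hav⟩
      rcases hv with hv | hv
      · by_cases h0 : v = a0
        · exact Or.inl h0
        · by_cases h : v ∈ R
          · exact absurd rfl ((hR1 v h b0 hb0).mp hav.symm)
          · exact Or.inr ⟨hv, h0, h⟩
      · exact absurd hav (hQ b0 hb0 v hv)
    · rintro (rfl | hv)
      · exact ⟨Or.inl ha0, ((hC b0 hb0).mpr rfl).symm⟩
      · exact ⟨Or.inl hv.1, (hTQ v hv.1 hv.2.1 hv.2.2 b0 hb0).symm⟩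

end H57E32
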