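import Pool.Agent.H57.E32.Local

/-!
The local inequality: star case, and the full lemma.
-/

namespace H57E32

open Finset

variable {V : Type*} [DecidableEq V] {G : SimpleGraph V} [DecidableRel G.Adj]

lemma star_case {s : ℕ} (hs : 1 ≤ s) {A Q : Finset V} {y0 a0 : V} (hTF : TF G (A ∪ Q))
    (hAQ : Disjoint A Q) (hQ : Ind G Q) (hn : (A ∪ Q).card ≤ 2 * s + 1)
    (ha0 : a0 ∈ A) (hR : ∃ a ∈ A, G.Adj a0 a)
    (hstar : ∀ a ∈ A, ∀ b ∈ A, G.Adj a b → a = a0 ∨ b = a0)
    (hy0 : y0 ∈ A) (hy0A : ∀ a ∈ A, ¬ G.Adj y0 a) :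
    0 ≤ X2 G s (A ∪ Q) ∨
      (-2 * ((s : ℤ) + 1) ≤ X2 G s (A ∪ Q) ∧ ∃ W C D x z, BS G s (A ∪ Q) W C D x z) := by
  classical
  have hdis : ∀ a ∈ A, a ∉ Q := fun a ha hq => (disjoint_left.mp hAQ) ha hq
  set R := nb G A a0 with hRdef
  have hRne : R.Nonempty := by
    obtain ⟨a, ha, hadj⟩ := hR
    exact ⟨a, mem_nb.mpr ⟨ha, hadj⟩⟩
  have hRA : R ⊆ A := nb_subset _ _
  have ha0R : a0 ∉ R := by
    intro h; exact G.loopless.irrefl a0 (mem_nb.mp h).2
  set C := nb G Q a0 with hCdef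
  have hCQ : C ⊆ Q := nb_subset _ _
  -- bipartite case: centre has no neighbour in Q
  by_cases hβ : C = ∅
  · left
    apply X2_bip s (P := A.erase a0) (Q := insert a0 Q)
    · ext v
      simp only [mem_union, mem_erase, mem_insert]
      by_cases h : v = a0
      · subst h; simp [ha0]
      · simp [h]
    · rw [disjoint_left]
      intro v hv hv'
      rw [mem_erase] at hv
      rw [mem_insert] at hv'
      rcases hv' with h | h
      · exact hv.1 h
      · exact hdis v hv.2 h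
    · intro a ha b hb hab
      rw [mem_erase] at ha hb
      rcases hstar a ha.2 b hb.2 hab with h | h
      · exact ha.1 h
      · exact hb.1 h
    · have h0 : ∀ q ∈ Q, ¬ G.Adj a0 q := by
        intro q hq h
        have : q ∈ C := mem_nb.mpr ⟨hq, h⟩
        rw [hβ] at this
        simp at this
      intro a ha b hb hab
      rw [mem_insert] at ha hb
      rcases ha with rfl | ha <;> rcases hb with rfl | hb
      · exact G.loopless.irrefl _ hab
      · exact h0 b hb hab
      · exact h0 a ha hab.symm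
      · exact hQ a ha b hb hab
    · exact hn
  -- bipartite case: a single leaf without neighbours in Q
  by_cases h1 : ∃ a1, R = {a1} ∧ nb G Q a1 = ∅
  · left
    obtain ⟨a1, hR1, hQ1⟩ := h1
    have ha1R : a1 ∈ R := by rw [hR1]; simp
    have ha1 : a1 ∈ A := hRA ha1R
    apply X2_bip s (P := A.erase a1) (Q := insert a1 Q)
    · ext v
      simp only [mem_union, mem_erase, mem_insert]
      by_cases h : v = a1
      · subst h; simp [ha1]
      · simp [h]
    · rw [disjoint_left]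
      intro v hv hv'
      rw [mem_erase] at hv
      rw [mem_insert] at hv'
      rcases hv' with h | h
      · exact hv.1 h
      · exact hdis v hv.2 h
    · intro a ha b hb hab
      rw [mem_erase] at ha hb
      rcases hstar a ha.2 b hb.2 hab with h | h
      · subst h
        have : b ∈ R := mem_nb.mpr ⟨hb.2, hab⟩
        rw [hR1, mem_singleton] at this
        exact hb.1 this
      · subst h
        have : a ∈ R := mem_nb.mpr ⟨ha.2, hab.symm⟩
        rw [hR1, mem_singleton] at this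
        exact ha.1 this
    · have h0 : ∀ q ∈ Q, ¬ G.Adj a1 q := by
        intro q hq h
        have : q ∈ nb G Q a1 := mem_nb.mpr ⟨hq, h⟩
        rw [hQ1] at this
        simp at this
      intro a ha b hb hab
      rw [mem_insert] at ha hb
      rcases ha with rfl | ha <;> rcases hb with rfl | hb
      · exact G.loopless.irrefl _ hab
      · exact h0 b hb hab
      · exact h0 a ha hab.symm
      · exact hQ a ha b hb hab
    · exact hn
  -- small number of edges
  by_cases hE : E2 G (A ∪ Q) ≤ 2 * s ^ 2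
  · left
    have h := X2_ge (G := G) s (A ∪ Q)
    have h2 : (E2 G (A ∪ Q) : ℤ) ≤ 2 * (s : ℤ) ^ 2 := by exact_mod_cast hE
    have h3 : (0 : ℤ) ≤ (s : ℤ) + 1 := by positivity
    have h4 : (0 : ℤ) ≤ ((s : ℤ) + 1) * (2 * (s : ℤ) ^ 2 - E2 G (A ∪ Q)) :=
      mul_nonneg h3 (by linarith)
    linarith
  push Not at hE
  right
  -- the main computation
  have hcard : A.card + Q.card ≤ 2 * s + 1 := by
    rwa [card_union_of_disjoint hAQ] at hn
  have hE2A : E2 G A = 2 * R.card := by
    have hA' : A = {a0} ∪ A.erase a0 := by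
      ext v
      simp only [mem_union, mem_singleton, mem_erase]
      by_cases h : v = a0
      · subst h; simp [ha0]
      · simp [h]
    have hd : Disjoint ({a0} : Finset V) (A.erase a0) := by simp
    have hI1 : Ind G ({a0} : Finset V) := by
      intro a ha b hb
      rw [mem_singleton] at ha hb
      subst ha; subst hb
      exact G.loopless.irrefl _
    have hI2 : Ind G (A.erase a0) := by
      intro a ha b hb hab
      rw [mem_erase] at ha hb
      rcases hstar a ha.2 b hb.2 hab with h | h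
      · exact ha.1 h
      · exact hb.1 h
    have hRR : dg G (A.erase a0) a0 = R.card := by
      unfold dg
      congr 1
      ext v
      rw [mem_nb, mem_erase, hRdef, mem_nb]
      constructor
      · rintro ⟨⟨_, h⟩, h'⟩; exact ⟨h, h'⟩
      · rintro ⟨h, h'⟩
        exact ⟨⟨fun hh => by subst hh; exact G.loopless.irrefl _ h', h⟩, h'⟩
    calc E2 G A = E2 G ({a0} ∪ A.erase a0) := by rw [← hA']
      _ = 2 * R.card := by
        rw [E2_union hd, hI1.E2_eq_zero, hI2.E2_eq_zero, sum_singleton, hRR]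
        ring
  have hE2S : (E2 G (A ∪ Q) : ℤ) = 2 * ∑ a ∈ A, (dg G Q a : ℤ) + 2 * R.card := by
    rw [E2_union hAQ, hQ.E2_eq_zero, hE2A]
    push_cast
    ring
  -- defects
  set δ : V → ℤ := fun a => (Q.card : ℤ) - dg G Q a with hδ
  have hsumδ : ∑ a ∈ A, (dg G Q a : ℤ) = A.card * Q.card - ∑ a ∈ A, δ a := by
    rw [hδ]
    simp only [sum_sub_distrib, sum_const, nsmul_eq_mul]
    ring
  have hδ0 : ∀ a, 0 ≤ δ a := by
    intro a
    have := dg_le_card (G := G) Q a
    simp only [hδ]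
    have : (dg G Q a : ℤ) ≤ Q.card := by exact_mod_cast this
    linarith
  have hleafsub : ∀ a ∈ R, nb G Q a ⊆ Q \ C := by
    intro a ha q hq
    rw [mem_nb] at hq
    rw [mem_sdiff]
    refine ⟨hq.1, fun hqC => ?_⟩
    have haR := mem_nb.mp ha
    have hqC' := mem_nb.mp hqC
    exact hTF a0 (mem_union_left _ ha0) a (mem_union_left _ haR.1) q (mem_union_right _ hq.1)
      haR.2 hq.2 hqC'.2
  have hcC : C.card ≤ Q.card := card_le_card hCQ
  have hleafδ : ∀ a ∈ R, (C.card : ℤ) ≤ δ a := by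
    intro a ha
    have h := card_le_card (hleafsub a ha)
    rw [card_sdiff_of_subset hCQ] at h
    simp only [hδ, dg]
    zify [hcC] at h
    linarith
  have hδa0 : δ a0 = Q.card - C.card := by simp only [hδ, dg]; rw [← hCdef]
  set T := (A.erase a0) \ R with hT
  have hRe : R ⊆ A.erase a0 := fun r hr => mem_erase.mpr ⟨fun h => ha0R (h ▸ hr), hRA hr⟩
  have hsplit : ∑ a ∈ A, δ a = δ a0 + (∑ a ∈ R, δ a) + ∑ a ∈ T, δ a := by
    rw [← add_sum_erase A δ ha0, ← sum_sdiff hRe, hT]
    ring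
  have hTnn : 0 ≤ ∑ a ∈ T, δ a := sum_nonneg (fun a _ => hδ0 a)
  have hRnn : 0 ≤ ∑ a ∈ R, (δ a - C.card) := sum_nonneg (fun a ha => by linarith [hleafδ a ha])
  have hRsum : ∑ a ∈ R, δ a = ∑ a ∈ R, (δ a - C.card) + R.card * C.card := by
    have h := sum_sub_distrib (s := R) δ (fun _ => (C.card : ℤ))
    rw [h, sum_const, nsmul_eq_mul]; ring
  set ε1 := ∑ a ∈ R, (δ a - C.card) with hε1
  set ε2 := ∑ a ∈ T, δ a with hε2
  -- arithmetic
  have hCpos : 1 ≤ C.card := card_pos.mpr (nonempty_iff_ne_empty.mpr hβ)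
  have hRpos : 1 ≤ R.card := card_pos.mpr hRne
  have hApos : 1 ≤ A.card := card_pos.mpr ⟨a0, ha0⟩
  have hEz : 2 * (s : ℤ) ^ 2 < E2 G (A ∪ Q) := by exact_mod_cast hE
  have hkey : (s : ℤ) ^ 2 + 1 ≤ ((A.card : ℤ) - 1) * Q.card - ((R.card : ℤ) - 1) * ((C.card : ℤ) - 1)
      + 1 - ε1 - ε2 := by
    have hpar : (s : ℤ) ^ 2 < ∑ a ∈ A, (dg G Q a : ℤ) + R.card := by
      rw [hE2S] at hEz; linarith
    have : (s : ℤ) ^ 2 + 1 ≤ ∑ a ∈ A, (dg G Q a : ℤ) + R.card := by linarith [Int.add_one_le_iff.mpr hpar]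
    rw [hsumδ, hsplit, hRsum, hδa0] at this
    linarith
  have hab : ((A.card : ℤ) - 1) + Q.card ≤ 2 * s := by
    have : (A.card : ℤ) + Q.card ≤ 2 * s + 1 := by exact_mod_cast hcard
    linarith
  have hA1 : (0 : ℤ) ≤ (A.card : ℤ) - 1 := by
    have : (1 : ℤ) ≤ A.card := by exact_mod_cast hApos
    linarith
  have hQ0 : (0 : ℤ) ≤ (Q.card : ℤ) := by positivity
  have hR1 : (0 : ℤ) ≤ (R.card : ℤ) - 1 := by
    have : (1 : ℤ) ≤ R.card := by exact_mod_cast hRpos
    linarith
  have hC1 : (0 : ℤ) ≤ (C.card : ℤ) - 1 := by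
    have : (1 : ℤ) ≤ C.card := by exact_mod_cast hCpos
    linarith
  have hRC : (0 : ℤ) ≤ ((R.card : ℤ) - 1) * ((C.card : ℤ) - 1) := mul_nonneg hR1 hC1
  have hAM : ((A.card : ℤ) - 1) * Q.card ≤ (s : ℤ) ^ 2 := by
    nlinarith [sq_nonneg ((A.card : ℤ) - 1 - Q.card), mul_nonneg hA1 hQ0]
  have hε1z : ε1 = 0 := by linarith
  have hε2z : ε2 = 0 := by linarith
  have hRCz : ((R.card : ℤ) - 1) * ((C.card : ℤ) - 1) = 0 := by linarith
  have hABz : ((A.card : ℤ) - 1) * Q.card = (s : ℤ) ^ 2 := by linarith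
  have hdiff : ((A.card : ℤ) - 1 - Q.card) = 0 := by
    have h1 : ((A.card : ℤ) - 1 - Q.card) ^ 2 ≤ 0 := by
      have h2 : ((A.card : ℤ) - 1 + Q.card) ^ 2 ≤ (2 * s) ^ 2 := by
        apply pow_le_pow_left₀ (by linarith) hab
      nlinarith
    have := sq_nonneg ((A.card : ℤ) - 1 - Q.card)
    have h3 : ((A.card : ℤ) - 1 - Q.card) ^ 2 = 0 := le_antisymm h1 this
    exact pow_eq_zero_iff (two_ne_zero) |>.mp h3
  have hQs : (Q.card : ℤ) = s := by
    have h1 : ((A.card : ℤ) - 1) = Q.card := by linarith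
    rw [h1] at hABz
    have h2 : (Q.card : ℤ) ^ 2 = (s : ℤ) ^ 2 := by rw [← hABz]; ring
    exact (pow_left_inj₀ hQ0 (by positivity) two_ne_zero).mp h2
  have hQs' : Q.card = s := by exact_mod_cast hQs
  have hAs' : A.card = s + 1 := by
    have : (A.card : ℤ) = s + 1 := by linarith
    exact_mod_cast this
  -- tight facts
  have hTfull : ∀ a ∈ T, ∀ q ∈ Q, G.Adj a q := by
    intro a ha q hq
    have h := (sum_eq_zero_iff_of_nonneg (fun a _ => hδ0 a)).mp hε2z a ha
    have hcq : (nb G Q a).card = Q.card := by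
      simp only [hδ, dg] at h
      have : (Q.card : ℤ) = (nb G Q a).card := by linarith
      exact_mod_cast this.symm
    have heq : nb G Q a = Q := eq_of_subset_of_card_le (nb_subset _ _) hcq.ge
    have : q ∈ nb G Q a := by rw [heq]; exact hq
    exact (mem_nb.mp this).2
  have hRfull : ∀ a ∈ R, ∀ q ∈ Q, (G.Adj a q ↔ q ∉ C) := by
    intro a ha q hq
    have h := (sum_eq_zero_iff_of_nonneg (fun a ha => by linarith [hleafδ a ha])).mp hε1z a ha
    have hcq : (nb G Q a).card = (Q \ C).card := by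
      rw [card_sdiff_of_subset hCQ]
      simp only [hδ, dg] at h
      have : ((nb G Q a).card : ℤ) = ((Q.card - C.card : ℕ) : ℤ) := by
        push_cast [hcC]
        linarith
      exact_mod_cast this
    have heq : nb G Q a = Q \ C := eq_of_subset_of_card_le (hleafsub a ha) hcq.ge
    have h2 : q ∈ nb G Q a ↔ q ∈ Q \ C := by rw [heq]
    rw [mem_nb, mem_sdiff] at h2
    tauto
  have hCiff : ∀ q ∈ Q, (G.Adj a0 q ↔ q ∈ C) := by
    intro q hq
    rw [hCdef, mem_nb]; tauto
  have hAdjA : ∀ a ∈ A, ∀ b ∈ A, (G.Adj a b ↔ (a = a0 ∧ b ∈ R) ∨ (a ∈ R ∧ b = a0)) := by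
    intro a ha b hb
    constructor
    · intro hab'
      rcases hstar a ha b hb hab' with h | h
      · subst h; exact Or.inl ⟨rfl, mem_nb.mpr ⟨hb, hab'⟩⟩
      · subst h; exact Or.inr ⟨mem_nb.mpr ⟨ha, hab'.symm⟩, rfl⟩
    · rintro (⟨rfl, h⟩ | ⟨h, rfl⟩)
      · exact (mem_nb.mp h).2
      · exact (mem_nb.mp h).2.symm
  refine ⟨?_, ?_⟩
  · -- value
    have hval : (E2 G (A ∪ Q) : ℤ) ≤ 2 * (s : ℤ) ^ 2 + 2 := by
      rw [hE2S, hsumδ, hsplit, hRsum, hδa0, hε1z, hε2z]
      linarith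
    have h := X2_ge (G := G) s (A ∪ Q)
    have h3 : (0 : ℤ) ≤ (s : ℤ) + 1 := by positivity
    have h4 : ((s : ℤ) + 1) * (-2) ≤ ((s : ℤ) + 1) * (2 * (s : ℤ) ^ 2 - E2 G (A ∪ Q)) :=
      mul_le_mul_of_nonneg_left (by linarith) h3
    linarith
  · rcases mul_eq_zero.mp hRCz with h | h
    · -- one leaf
      have hR1' : R.card = 1 := by
        have : (R.card : ℤ) = 1 := by linarith
        exact_mod_cast this
      obtain ⟨a1, ha1R⟩ := card_eq_one.mp hR1'
      have ha1mem : a1 ∈ R := by rw [ha1R]; simp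
      have ha1A : a1 ∈ A := hRA ha1mem
      have hne : a0 ≠ a1 := fun h => ha0R (h ▸ ha1mem)
      have hDne : (Q \ C).Nonempty := by
        by_contra hcon
        rw [not_nonempty_iff_eq_empty] at hcon
        apply h1
        refine ⟨a1, ha1R, ?_⟩
        have := hleafsub a1 ha1mem
        rw [hcon] at this
        exact subset_empty.mp this
      refine ⟨T, C, Q \ C, a0, a1, ?_⟩
      apply bs_case1 hAQ hQ ha0 ha1A hne _ _ hTfull hCQ hCiff (hRfull a1 ha1mem) hAs' hQs'
        (nonempty_iff_ne_empty.mpr hβ) hDne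
      · rw [hT, ha1R, sdiff_singleton_eq_erase]
      · intro a ha b hb
        rw [hAdjA a ha b hb, ha1R]
        simp
    · -- the centre has one neighbour in Q
      have hC1' : C.card = 1 := by
        have : (C.card : ℤ) = 1 := by linarith
        exact_mod_cast this
      obtain ⟨b0, hb0C⟩ := card_eq_one.mp hC1'
      have hb0mem : b0 ∈ C := by rw [hb0C]; simp
      refine ⟨Q.erase b0, R, (A.erase a0) \ R, a0, b0, ?_⟩
      apply bs_case2 hAQ hQ ha0 (hCQ hb0mem) hRA ha0R hAdjA _ _ _ hAs' hQs' hRne _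
      · intro a ha h0 hR' q hq
        apply hTfull a _ q hq
        rw [hT, mem_sdiff, mem_erase]
        exact ⟨⟨h0, ha⟩, hR'⟩
      · intro q hq
        rw [hCiff q hq, hb0C, mem_singleton]
      · intro a ha q hq
        rw [hRfull a ha q hq, hb0C, mem_singleton]
      · refine ⟨y0, ?_⟩
        rw [mem_sdiff, mem_erase]
        obtain ⟨a, ha⟩ := hRne
        have haA := hRA ha
        have hadj := (mem_nb.mp ha).2
        refine ⟨⟨?_, hy0⟩, ?_⟩
        · intro h; subst h; exact hy0A a haA hadj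
        · intro h; exact hy0A a0 ha0 (mem_nb.mp h).2.symm

end H57E32
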