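import Pool.Agent.H57.E32.Local2

/-!
The local inequality, full lemma, and the Mantel type bounds.
-/

namespace H57E32

open Finset

variable {V : Type*} [DecidableEq V] {G : SimpleGraph V} [DecidableRel G.Adj]

/-- decomposition of a triangle-free set along a neighbourhood -/
lemma E2_eq_of_nb {S : Finset V} (hTF : TF G S) {y : V} (hy : y ∈ S) :
    E2 G S = ∑ a ∈ S \ nb G S y, dg G (nb G S y) a + ∑ a ∈ S \ nb G S y, dg G S a := by
  set Q := nb G S y with hQ
  have hQS : Q ⊆ S := nb_subset _ _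
  have hS : S = (S \ Q) ∪ Q := (sdiff_union_of_subset hQS).symm
  have hd : Disjoint (S \ Q) Q := sdiff_disjoint
  have hI : Ind G Q := hTF.ind_nb hy
  have h1 : E2 G S = E2 G (S \ Q) + 2 * ∑ a ∈ S \ Q, dg G Q a := by
    conv_lhs => rw [hS]
    rw [E2_union hd, hI.E2_eq_zero]
    ring
  have h2 : ∀ a, dg G S a = dg G (S \ Q) a + dg G Q a := by
    intro a
    conv_lhs => rw [hS]
    exact dg_union hd a
  rw [h1]
  simp only [h2, sum_add_distrib]
  unfold E2
  ring

lemma E2_le_of_max {S : Finset V} (hTF : TF G S) {y : V} (hy : y ∈ S)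
    (hmax : ∀ z ∈ S, dg G S z ≤ dg G S y) :
    E2 G S ≤ 2 * ((S.card - dg G S y) * dg G S y) := by
  rw [E2_eq_of_nb hTF hy]
  have hc : (S \ nb G S y).card = S.card - dg G S y :=
    card_sdiff_of_subset (nb_subset _ _)
  have h1 : ∑ a ∈ S \ nb G S y, dg G (nb G S y) a ≤ (S.card - dg G S y) * dg G S y := by
    calc ∑ a ∈ S \ nb G S y, dg G (nb G S y) a ≤ ∑ _a ∈ S \ nb G S y, dg G S y :=
          sum_le_sum (fun a _ => dg_le_card _ _)
      _ = _ := by rw [sum_const, smul_eq_mul, hc]
  have h2 : ∑ a ∈ S \ nb G S y, dg G S a ≤ (S.card - dg G S y) * dg G S y := by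
    calc ∑ a ∈ S \ nb G S y, dg G S a ≤ ∑ _a ∈ S \ nb G S y, dg G S y :=
          sum_le_sum (fun a ha => hmax a (sdiff_subset ha))
      _ = _ := by rw [sum_const, smul_eq_mul, hc]
  omega

/-- Mantel's theorem, relative form: `4 e ≤ n²` -/
lemma mantel {S : Finset V} (hTF : TF G S) : 2 * E2 G S ≤ S.card ^ 2 := by
  rcases S.eq_empty_or_nonempty with rfl | hne
  · simp [E2]
  obtain ⟨y, hy, hmax⟩ := S.exists_max_image (dg G S) hne
  have h := E2_le_of_max hTF hy hmax
  have hle := dg_le_card (G := G) S y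
  obtain ⟨k, hk⟩ := Nat.exists_eq_add_of_le hle
  rw [hk] at h ⊢
  rw [Nat.add_sub_cancel_left] at h
  have : 4 * (k * dg G S y) ≤ (dg G S y + k) ^ 2 := by
    zify
    nlinarith [sq_nonneg ((dg G S y : ℤ) - k)]
  omega

lemma local_lemma {s : ℕ} (hs : 1 ≤ s) {S : Finset V} (hTF : TF G S)
    (hn : S.card ≤ 2 * s + 1) :
    0 ≤ X2 G s S ∨
      (-2 * ((s : ℤ) + 1) ≤ X2 G s S ∧ ∃ W C D x z, BS G s S W C D x z ∧ C.card ≤ D.card) := by
  classical
  rcases S.eq_empty_or_nonempty with rfl | hne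
  · left
    apply X2_bip s (P := ∅) (Q := ∅) (by simp) (by simp) _ _ hn
    · intro a ha; simp at ha
    · intro a ha; simp at ha
  obtain ⟨y0, hy0, hmax⟩ := S.exists_max_image (dg G S) hne
  set Q := nb G S y0 with hQdef
  have hQS : Q ⊆ S := nb_subset _ _
  set A := S \ Q with hAdef
  have hS : S = A ∪ Q := (sdiff_union_of_subset hQS).symm
  have hAQ : Disjoint A Q := sdiff_disjoint
  have hQI : Ind G Q := hTF.ind_nb hy0
  have hAS : A ⊆ S := sdiff_subset
  have hcard : A.card + Q.card ≤ 2 * s + 1 := by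
    have := card_union_of_disjoint hAQ
    rw [← hS] at this
    omega
  by_cases hAI : Ind G A
  · left
    exact X2_bip s hS hAQ hAI hQI hn
  unfold Ind at hAI
  push Not at hAI
  obtain ⟨e1, he1, e2, he2, he12⟩ := hAI
  have hAne : A.Nonempty := ⟨e1, he1⟩
  obtain ⟨a0, ha0, hmaxA⟩ := A.exists_max_image (dg G A) hAne
  have hpos : 1 ≤ dg G A a0 := by
    refine le_trans ?_ (hmaxA e1 he1)
    exact card_pos.mpr ⟨e2, mem_nb.mpr ⟨he2, he12⟩⟩
  have hR : ∃ a ∈ A, G.Adj a0 a := by
    obtain ⟨a, ha⟩ := card_pos.mp hpos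
    exact ⟨a, (mem_nb.mp ha).1, (mem_nb.mp ha).2⟩
  have hy0A : y0 ∈ A := by
    rw [hAdef, mem_sdiff]
    refine ⟨hy0, fun h => G.loopless.irrefl y0 (mem_nb.mp h).2⟩
  have hy0n : ∀ a ∈ A, ¬ G.Adj y0 a := by
    intro a ha h
    rw [hAdef, mem_sdiff] at ha
    exact ha.2 (mem_nb.mpr ⟨ha.1, h⟩)
  by_cases hstar : ∀ a ∈ A, ∀ b ∈ A, G.Adj a b → a = a0 ∨ b = a0
  · -- star
    have hres := star_case hs (by rw [← hS]; exact hTF) hAQ hQI (by rw [← hS]; exact hn)
      ha0 hR hstar hy0A hy0n
    rw [← hS] at hres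
    rcases hres with h | ⟨h, W, C, D, x, z, hBS⟩
    · left; exact h
    · right
      refine ⟨h, ?_⟩
      rcases le_total C.card D.card with h' | h'
      · exact ⟨W, C, D, x, z, hBS, h'⟩
      · exact ⟨W, D, C, z, x, hBS.symm, h'⟩
  · left
    push Not at hstar
    obtain ⟨b1, hb1, b2, hb2, hb12, hb1a, hb2a⟩ := hstar
    have hex : ∃ c ∈ A, G.Adj a0 c ∧ c ≠ b1 ∧ c ≠ b2 := by
      by_contra hcon
      push Not at hcon
      have hsub : ∀ c ∈ nb G A a0, c = b1 ∨ c = b2 := by
        intro c hc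
        have hc' := mem_nb.mp hc
        by_contra h
        push Not at h
        exact h.2 (hcon c hc'.1 hc'.2 h.1)
      by_cases h1 : b1 ∈ nb G A a0
      · have h2 : b2 ∉ nb G A a0 := by
          intro h2
          exact hTF a0 (hAS ha0) b1 (hAS hb1) b2 (hAS hb2) (mem_nb.mp h1).2 hb12 (mem_nb.mp h2).2
        have h3 : nb G A a0 ⊆ {b1} := by
          intro c hc
          rcases hsub c hc with h | h
          · simp [h]
          · subst h; exact absurd hc h2
        have h4 : dg G A a0 ≤ 1 := by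
          have := card_le_card h3
          rw [card_singleton] at this
          exact this
        have h5 : ({a0, b2} : Finset V) ⊆ nb G A b1 := by
          intro c hc
          simp only [mem_insert, mem_singleton] at hc
          rcases hc with rfl | rfl
          · exact mem_nb.mpr ⟨ha0, (mem_nb.mp h1).2.symm⟩
          · exact mem_nb.mpr ⟨hb2, hb12⟩
        have h6 := card_le_card h5
        rw [card_pair (Ne.symm hb2a)] at h6
        have := hmaxA b1 hb1
        unfold dg at this h4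
        omega
      · have h3 : nb G A a0 ⊆ {b2} := by
          intro c hc
          rcases hsub c hc with h | h
          · subst h; exact absurd hc h1
          · simp [h]
        have h4 : dg G A a0 ≤ 1 := by
          have := card_le_card h3
          rw [card_singleton] at this
          exact this
        have h2 : b2 ∈ nb G A a0 := by
          obtain ⟨c, hc⟩ := card_pos.mp hpos
          have := h3 hc
          rw [mem_singleton] at this
          rw [← this]; exact hc
        have h5 : ({a0, b1} : Finset V) ⊆ nb G A b2 := by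
          intro c hc
          simp only [mem_insert, mem_singleton] at hc
          rcases hc with rfl | rfl
          · exact mem_nb.mpr ⟨ha0, (mem_nb.mp h2).2.symm⟩
          · exact mem_nb.mpr ⟨hb1, hb12.symm⟩
        have h6 := card_le_card h5
        rw [card_pair (Ne.symm hb1a)] at h6
        have := hmaxA b2 hb2
        unfold dg at this h4
        omega
    obtain ⟨c, hc, hac, hcb1, hcb2⟩ := hex
    -- two disjoint edges a0 c and b1 b2
    have hedge : ∀ a ∈ A, ∀ b ∈ A, G.Adj a b → dg G Q a + dg G Q b ≤ Q.card := by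
      intro a ha b hb hab
      unfold dg
      rw [← card_union_of_disjoint]
      · exact card_le_card (union_subset (nb_subset _ _) (nb_subset _ _))
      · rw [disjoint_left]
        intro q hq hq'
        have h1 := mem_nb.mp hq
        have h2 := mem_nb.mp hq'
        exact hTF a (hAS ha) b (hAS hb) q (hQS h1.1) hab h2.2 h1.2
    have hfour : ({a0, c, b1, b2} : Finset V) ⊆ A := by
      intro v hv
      simp only [mem_insert, mem_singleton] at hv
      rcases hv with rfl | rfl | rfl | rfl <;> assumption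
    have hac' : a0 ≠ c := G.ne_of_adj hac
    have hb12' : b1 ≠ b2 := G.ne_of_adj hb12
    have hδ : ∀ a, (0 : ℤ) ≤ (Q.card : ℤ) - dg G Q a := by
      intro a
      have : (dg G Q a : ℤ) ≤ Q.card := by exact_mod_cast dg_le_card (G := G) Q a
      linarith
    have hsum4 : ∑ a ∈ ({a0, c, b1, b2} : Finset V), ((Q.card : ℤ) - dg G Q a) ≤
        ∑ a ∈ A, ((Q.card : ℤ) - dg G Q a) :=
      sum_le_sum_of_subset_of_nonneg hfour (fun a _ _ => hδ a)
    have hn1 : a0 ∉ ({c, b1, b2} : Finset V) := by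
      simp only [mem_insert, mem_singleton, not_or]
      exact ⟨hac', Ne.symm hb1a, Ne.symm hb2a⟩
    have hn2 : c ∉ ({b1, b2} : Finset V) := by
      simp only [mem_insert, mem_singleton, not_or]
      exact ⟨hcb1, hcb2⟩
    have hn3 : b1 ∉ ({b2} : Finset V) := by
      simp only [mem_singleton]
      exact hb12'
    rw [sum_insert hn1, sum_insert hn2, sum_insert hn3, sum_singleton] at hsum4
    have he1' : (dg G Q a0 : ℤ) + dg G Q c ≤ Q.card := by exact_mod_cast hedge a0 ha0 c hc hac
    have he2' : (dg G Q b1 : ℤ) + dg G Q b2 ≤ Q.card := by exact_mod_cast hedge b1 hb1 b2 hb2 hb12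
    have hsumA : ∑ a ∈ A, ((Q.card : ℤ) - dg G Q a) = A.card * Q.card - ∑ a ∈ A, (dg G Q a : ℤ) := by
      rw [sum_sub_distrib, sum_const, nsmul_eq_mul]
    have hsumS : ∑ a ∈ A, (dg G S a : ℤ) ≤ A.card * Q.card := by
      calc ∑ a ∈ A, (dg G S a : ℤ) ≤ ∑ _a ∈ A, (Q.card : ℤ) := by
            apply sum_le_sum
            intro a ha
            exact_mod_cast hmax a (hAS ha)
        _ = _ := by rw [sum_const, nsmul_eq_mul]
    have hE : (E2 G S : ℤ) = ∑ a ∈ A, (dg G Q a : ℤ) + ∑ a ∈ A, (dg G S a : ℤ) := by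
      rw [E2_eq_of_nb hTF hy0]
      push_cast
      rfl
    have hE' : (E2 G S : ℤ) ≤ 2 * (((A.card : ℤ) - 1) * Q.card) := by
      rw [hE]; linarith
    have hab : ((A.card : ℤ) - 1) + Q.card ≤ 2 * s := by
      have : (A.card : ℤ) + Q.card ≤ 2 * s + 1 := by exact_mod_cast hcard
      linarith
    have hA1 : (0 : ℤ) ≤ (A.card : ℤ) - 1 := by
      have h0 : 1 ≤ A.card := card_pos.mpr hAne
      have : (1 : ℤ) ≤ A.card := by exact_mod_cast h0
      linarith
    have hQ0 : (0 : ℤ) ≤ (Q.card : ℤ) := Nat.cast_nonneg _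
    have hAM : ((A.card : ℤ) - 1) * Q.card ≤ (s : ℤ) ^ 2 := by
      nlinarith [sq_nonneg ((A.card : ℤ) - 1 - Q.card), mul_nonneg hA1 hQ0]
    have h := X2_ge (G := G) s S
    have h3 : (0 : ℤ) ≤ (s : ℤ) + 1 := by positivity
    have h4 : (0 : ℤ) ≤ ((s : ℤ) + 1) * (2 * (s : ℤ) ^ 2 - E2 G S) :=
      mul_nonneg h3 (by linarith)
    linarith

end H57E32
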