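import Pool.Agent.H57.E32.Local3

/-!
Stability estimates in links with many edges.
-/

namespace H57E32

open Finset

variable {V : Type*} [DecidableEq V] {G : SimpleGraph V} [DecidableRel G.Adj]

/-- removing a set of vertices -/
lemma E2_remove {S B : Finset V} (hB : B ⊆ S) :
    E2 G S ≤ E2 G (S \ B) + 2 * ∑ b ∈ B, dg G S b := by
  have hS : S = (S \ B) ∪ B := (sdiff_union_of_subset hB).symm
  have hd : Disjoint (S \ B) B := sdiff_disjoint
  have h1 : E2 G S = E2 G (S \ B) + E2 G B + 2 * ∑ a ∈ B, dg G (S \ B) a := by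
    conv_lhs => rw [hS]
    rw [E2_union hd, sum_dg_comm]
  have h2 : ∑ b ∈ B, dg G S b = ∑ b ∈ B, dg G (S \ B) b + E2 G B := by
    unfold E2
    rw [← sum_add_distrib]
    apply sum_congr rfl
    intro b _
    conv_lhs => rw [hS]
    exact dg_union hd b
  omega

lemma missing_nonneg (Z : Finset V) (a : V) : (0 : ℤ) ≤ (Z.card : ℤ) - dg G Z a := by
  have : (dg G Z a : ℤ) ≤ Z.card := by exact_mod_cast dg_le_card (G := G) Z a
  linarith

/-- the number of missing neighbours is monotone -/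
lemma missing_mono {Z Z' : Finset V} (h : Z ⊆ Z') (a : V) :
    (Z.card : ℤ) - dg G Z a ≤ (Z'.card : ℤ) - dg G Z' a := by
  have hS : Z' = (Z' \ Z) ∪ Z := (sdiff_union_of_subset h).symm
  have hd : Disjoint (Z' \ Z) Z := sdiff_disjoint
  have h1 : dg G Z' a = dg G (Z' \ Z) a + dg G Z a := by
    conv_lhs => rw [hS]
    exact dg_union hd a
  have h2 : Z'.card = (Z' \ Z).card + Z.card := by
    conv_lhs => rw [hS]
    exact card_union_of_disjoint hd
  have h3 := dg_le_card (G := G) (Z' \ Z) a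
  zify at h1 h2 h3
  linarith

lemma L1_aux {s : ℕ} {S : Finset V} (hTF : TF G S) (hn : S.card ≤ 2 * s + 1)
    (hE : 2 * s ^ 2 ≤ E2 G S + 8 * s + 3) {p : V} (hp : p ∈ S) (hdp : dg G S p = s) :
    ∃ t : ℕ, t ^ 2 ≤ 5 * s + 1 + t ∧
      ∑ a ∈ (S \ nb G S p).erase p, ((s : ℤ) - dg G (nb G S p) a) ≤ s * t + 10 * s + 3 := by
  obtain ⟨y, hy, hmax⟩ := S.exists_max_image (dg G S) ⟨p, hp⟩
  have hDs : s ≤ dg G S y := by rw [← hdp]; exact hmax p hp
  obtain ⟨t, ht⟩ := Nat.exists_eq_add_of_le hDs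
  have hDn := dg_le_card (G := G) S y
  refine ⟨t, ?_, ?_⟩
  · have h := E2_le_of_max hTF hy hmax
    rw [ht] at h hDn
    obtain ⟨k, hk⟩ := Nat.exists_eq_add_of_le hDn
    rw [hk, Nat.add_sub_cancel_left] at h
    have hk2 : t + k ≤ s + 1 := by omega
    have h2 : 2 * s ^ 2 ≤ 2 * (k * (s + t)) + 8 * s + 2 := by omega
    zify at h2 hk2 ⊢
    have hst : (0 : ℤ) ≤ (s : ℤ) + t := by positivity
    nlinarith [mul_le_mul_of_nonneg_right (show (k : ℤ) ≤ s + 1 - t by linarith) hst]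
  · have hsplit := E2_eq_of_nb hTF hp
    set Q := nb G S p with hQ
    have hQS : Q ⊆ S := nb_subset _ _
    have hpA : p ∈ S \ Q := by
      rw [mem_sdiff]
      exact ⟨hp, fun h => G.loopless.irrefl p (mem_nb.mp h).2⟩
    rw [← add_sum_erase _ _ hpA, ← add_sum_erase _ (fun a => dg G S a) hpA] at hsplit
    set M := (S \ Q).erase p with hM
    have hQc : Q.card = s := hdp
    have hQp : dg G Q p = s := by
      unfold dg
      have : nb G Q p = Q := by
        ext v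
        rw [mem_nb, hQ, mem_nb]
        tauto
      rw [this, hQc]
    have hMc : M.card ≤ s := by
      rw [hM, card_erase_of_mem hpA, card_sdiff_of_subset hQS, hQc]
      omega
    have h2 : ∑ a ∈ M, dg G S a ≤ M.card * (s + t) := by
      calc ∑ a ∈ M, dg G S a ≤ ∑ _a ∈ M, (s + t) := by
            apply sum_le_sum
            intro a ha
            rw [← ht]
            exact hmax a (sdiff_subset (erase_subset _ _ ha))
        _ = _ := by rw [sum_const, smul_eq_mul]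
    rw [hQp, hdp] at hsplit
    have h3 : ∑ a ∈ M, ((s : ℤ) - dg G Q a) = M.card * s - ∑ a ∈ M, (dg G Q a : ℤ) := by
      rw [sum_sub_distrib, sum_const, nsmul_eq_mul]
    rw [h3]
    have h4 : (E2 G S : ℤ) = (s + ∑ a ∈ M, (dg G Q a : ℤ)) + (s + ∑ a ∈ M, (dg G S a : ℤ)) := by
      rw [hsplit]; push_cast; rfl
    have h5 : (∑ a ∈ M, (dg G S a : ℤ)) ≤ M.card * (s + t) := by exact_mod_cast h2
    have h6 : 2 * (s : ℤ) ^ 2 ≤ E2 G S + 8 * s + 3 := by exact_mod_cast hE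
    have h7 : (M.card : ℤ) ≤ s := by exact_mod_cast hMc
    have h8 : (M.card : ℤ) * (s + t) ≤ s * (s + t) :=
      mul_le_mul_of_nonneg_right h7 (by positivity)
    have h9 : (M.card : ℤ) * s ≤ s * s := mul_le_mul_of_nonneg_right h7 (by positivity)
    nlinarith

lemma t_bound {s t : ℕ} (hs : 1200 ≤ s) (ht : t ^ 2 ≤ 5 * s + 1 + t) : 15 * t ≤ s := by
  by_contra hcon
  push Not at hcon
  have h1 : 81 ≤ t := by omega
  nlinarith

/-- few pairs are missing between `N(p)` and the rest -/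
lemma L1 {s : ℕ} (hs : 1200 ≤ s) {S : Finset V} (hTF : TF G S) (hn : S.card ≤ 2 * s + 1)
    (hE : 2 * s ^ 2 ≤ E2 G S + 8 * s + 3) {p : V} (hp : p ∈ S) (hdp : dg G S p = s)
    {Z Y : Finset V} (hZ : Z ⊆ nb G S p) (hYS : Y ⊆ S) (hpY : p ∉ Y)
    (hY : ∀ y ∈ Y, ¬ G.Adj p y) :
    15 * ∑ a ∈ Y, ((Z.card : ℤ) - dg G Z a) ≤ (s : ℤ) ^ 2 + 150 * s + 45 := by
  obtain ⟨t, ht, hsum⟩ := L1_aux hTF hn hE hp hdp
  have htb := t_bound hs ht
  have hsub : Y ⊆ (S \ nb G S p).erase p := by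
    intro y hy
    rw [mem_erase, mem_sdiff]
    refine ⟨fun h => hpY (h ▸ hy), hYS hy, fun h => hY y hy (mem_nb.mp h).2⟩
  have hc : ((nb G S p).card : ℤ) = s := by exact_mod_cast hdp
  have h1 : ∑ a ∈ Y, ((Z.card : ℤ) - dg G Z a) ≤ ∑ a ∈ Y, ((s : ℤ) - dg G (nb G S p) a) := by
    apply sum_le_sum
    intro a _
    have := missing_mono (G := G) hZ a
    rw [hc] at this
    exact this
  have h2 : ∑ a ∈ Y, ((s : ℤ) - dg G (nb G S p) a) ≤
      ∑ a ∈ (S \ nb G S p).erase p, ((s : ℤ) - dg G (nb G S p) a) := by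
    apply sum_le_sum_of_subset_of_nonneg hsub
    intro a _ _
    have := missing_nonneg (G := G) (nb G S p) a
    rw [hc] at this
    exact this
  have h3 : (15 * t : ℤ) ≤ s := by exact_mod_cast htb
  have h4 : (s : ℤ) * (15 * t) ≤ s * s := mul_le_mul_of_nonneg_left h3 (by positivity)
  nlinarith

/-- many vertices of small degree -/
lemma many_low {s : ℕ} (hs : 100 ≤ s) {S B : Finset V} (hTF : TF G S)
    (hn : S.card ≤ 2 * s + 1) (hB : B ⊆ S) (hm : 3 ≤ B.card)
    (hlow : ∀ b ∈ B, 2 * dg G S b ≤ s + 2) :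
    4 * (B.card : ℤ) ≤ 2 * (s : ℤ) ^ 2 - E2 G S := by
  have hgen : ∀ k : ℕ, k ≤ B.card →
      2 * (2 * (s : ℤ) ^ 2 - E2 G S) ≥ 2 * ((k : ℤ) - 2) * s - 2 * k - 1 - (k : ℤ) ^ 2 := by
    intro k hk
    obtain ⟨B', hB', hcB'⟩ := exists_subset_card_eq hk
    have hB'S : B' ⊆ S := hB'.trans hB
    have h1 := E2_remove (G := G) hB'S
    have h2 := mantel (hTF.mono (sdiff_subset (s := S) (t := B')))
    have h3 : (S \ B').card = S.card - k := by rw [card_sdiff_of_subset hB'S, hcB']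
    have h4 : 2 * ∑ b ∈ B', dg G S b ≤ k * (s + 2) := by
      rw [mul_sum, ← hcB', ← smul_eq_mul, ← sum_const]
      exact sum_le_sum (fun b hb => hlow b (hB' hb))
    have hkS : k ≤ S.card := hk.trans (card_le_card hB)
    have h5 : (S \ B').card ^ 2 ≤ (2 * s + 1 - k) ^ 2 := by
      rw [h3]
      exact Nat.pow_le_pow_left (by omega) 2
    have hk2 : k ≤ 2 * s + 1 := hkS.trans hn
    have h6 : 2 * E2 G (S \ B') ≤ (2 * s + 1 - k) ^ 2 := h2.trans h5
    zify [hk2] at h6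
    zify at h1 h4
    nlinarith
  have hBS : B.card ≤ 2 * s + 1 := (card_le_card hB).trans hn
  rcases le_total (2 * B.card) s with h | h
  · have h1 := hgen B.card le_rfl
    have h2 : (2 * B.card : ℤ) ≤ s := by exact_mod_cast h
    have h3 : (3 : ℤ) ≤ B.card := by exact_mod_cast hm
    have h4 : (100 : ℤ) ≤ s := by exact_mod_cast hs
    nlinarith
  · have h1 := hgen (s / 2) (by omega)
    have h2 : ((s / 2 : ℕ) : ℤ) * 2 ≤ s := by
      have : (s / 2) * 2 ≤ s := Nat.div_mul_le_self s 2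
      exact_mod_cast this
    have h3 : (s : ℤ) ≤ ((s / 2 : ℕ) : ℤ) * 2 + 1 := by
      have : s ≤ (s / 2) * 2 + 1 := by omega
      exact_mod_cast this
    have h4 : (100 : ℤ) ≤ s := by exact_mod_cast hs
    have h5 : (B.card : ℤ) ≤ 2 * s + 1 := by exact_mod_cast hBS
    set k : ℤ := ((s / 2 : ℕ) : ℤ) with hk
    nlinarith

end H57E32
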