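import Pool.Agent.H57.E32.Defs

/-!
Disjoint unions and the set of achievable pairs.
-/

namespace H57E32

open Finset

variable {V W : Type*} {G : SimpleGraph V} {H : SimpleGraph W}

lemma kc_map (e : V ≃ W) (r : ℕ) : kc r (G.map e) = kc r G := by
  have h := SimpleGraph.cliqueSet_map_of_equiv G e r
  have h1 : kc r (G.map e) = ((G.map e).cliqueSet r).ncard := rfl
  have h2 : kc r G = (G.cliqueSet r).ncard := rfl
  rw [h1, h2, h, Set.ncard_image_of_injective]
  exact Finset.map_injective _

/-- achievable pairs -/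
def Ach (u t Δ ω p N : ℕ) : Prop :=
  ∃ (m : ℕ) (G : SimpleGraph (Fin m)), Allowed u Δ ω G ∧ kc u G = p ∧ kc t G = N

lemma ach_of [Finite W] {u t Δ ω : ℕ} (H : SimpleGraph W) (h : Allowed u Δ ω H) :
    Ach u t Δ ω (kc u H) (kc t H) := by
  obtain ⟨m, ⟨e⟩⟩ := Finite.exists_equiv_fin W
  refine ⟨m, H.map e, ?_, kc_map e u, kc_map e t⟩
  unfold Allowed at h ⊢
  have hiso := SimpleGraph.Iso.map e H
  exact ⟨(SimpleGraph.free_congr_right hiso).mp h.1, (SimpleGraph.free_congr_right hiso).mp h.2⟩

lemma clique_sum {r : ℕ} (hr : 1 ≤ r) {s : Finset (V ⊕ W)} (h : (G ⊕g H).IsNClique r s) :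
    (∃ s', G.IsNClique r s' ∧ s = s'.map Function.Embedding.inl) ∨
      (∃ s', H.IsNClique r s' ∧ s = s'.map Function.Embedding.inr) := by
  rw [SimpleGraph.isNClique_iff] at h
  have hne : s.Nonempty := by rw [← card_pos, h.2]; exact hr
  obtain ⟨x, hx⟩ := hne
  rcases x with a | b
  · left
    have hR : s.toRight = ∅ := by
      rw [eq_empty_iff_forall_notMem]
      intro w hw
      rw [mem_toRight] at hw
      have := h.1 hx hw (by simp)
      simp at this
    have hs : s = s.toLeft.map Function.Embedding.inl := by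
      conv_lhs => rw [← toLeft_disjSum_toRight (u := s), hR, disjSum_empty]
    refine ⟨s.toLeft, ?_, hs⟩
    rw [SimpleGraph.isNClique_iff]
    constructor
    · intro y hy z hz hyz
      rw [mem_coe, mem_toLeft] at hy hz
      have := h.1 hy hz (fun h => hyz (Sum.inl_injective h))
      simpa using this
    · rw [← h.2]
      conv_rhs => rw [hs]
      rw [card_map]
  · right
    have hL : s.toLeft = ∅ := by
      rw [eq_empty_iff_forall_notMem]
      intro w hw
      rw [mem_toLeft] at hw
      have := h.1 hx hw (by simp)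
      simp at this
    have hs : s = s.toRight.map Function.Embedding.inr := by
      conv_lhs => rw [← toLeft_disjSum_toRight (u := s), hL, empty_disjSum]
    refine ⟨s.toRight, ?_, hs⟩
    rw [SimpleGraph.isNClique_iff]
    constructor
    · intro y hy z hz hyz
      rw [mem_coe, mem_toRight] at hy hz
      have := h.1 hy hz (fun h => hyz (Sum.inr_injective h))
      simpa using this
    · rw [← h.2]
      conv_rhs => rw [hs]
      rw [card_map]

lemma clique_inl {r : ℕ} {s : Finset V} (h : G.IsNClique r s) :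
    (G ⊕g H).IsNClique r (s.map Function.Embedding.inl) := by
  rw [SimpleGraph.isNClique_iff] at h ⊢
  constructor
  · intro y hy z hz hyz
    rw [mem_coe, mem_map] at hy hz
    obtain ⟨y, hy, rfl⟩ := hy
    obtain ⟨z, hz, rfl⟩ := hz
    have := h.1 hy hz (fun h => hyz (by rw [h]))
    simpa using this
  · rw [card_map, h.2]

lemma clique_inr {r : ℕ} {s : Finset W} (h : H.IsNClique r s) :
    (G ⊕g H).IsNClique r (s.map Function.Embedding.inr) := by
  rw [SimpleGraph.isNClique_iff] at h ⊢
  constructor
  · intro y hy z hz hyz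
    rw [mem_coe, mem_map] at hy hz
    obtain ⟨y, hy, rfl⟩ := hy
    obtain ⟨z, hz, rfl⟩ := hz
    have := h.1 hy hz (fun h => hyz (by rw [h]))
    simpa using this
  · rw [card_map, h.2]

lemma kc_sum [Finite V] [Finite W] {r : ℕ} (hr : 1 ≤ r) :
    kc r (G ⊕g H) = kc r G + kc r H := by
  unfold kc
  have h1 : {A : Finset (V ⊕ W) | (G ⊕g H).IsNClique r A} =
      (Finset.map Function.Embedding.inl '' {A : Finset V | G.IsNClique r A}) ∪
        (Finset.map Function.Embedding.inr '' {A : Finset W | H.IsNClique r A}) := by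
    ext s
    constructor
    · intro hs
      rcases clique_sum hr hs with ⟨s', h1, h2⟩ | ⟨s', h1, h2⟩
      · left; exact ⟨s', h1, h2.symm⟩
      · right; exact ⟨s', h1, h2.symm⟩
    · rintro (⟨s', h1, rfl⟩ | ⟨s', h1, rfl⟩)
      · exact clique_inl h1
      · exact clique_inr h1
  rw [h1, Set.ncard_union_eq, Set.ncard_image_of_injective _ (Finset.map_injective _),
    Set.ncard_image_of_injective _ (Finset.map_injective _)]
  · rw [Set.disjoint_left]
    rintro _ ⟨s, hs, rfl⟩ ⟨s', hs', heq⟩
    have hne : s.Nonempty := by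
      rw [← card_pos, hs.card_eq]; exact hr
    obtain ⟨a, ha⟩ := hne
    have h2 : (Sum.inl a : V ⊕ W) ∈ s.map Function.Embedding.inl := by
      rw [mem_map]; exact ⟨a, ha, rfl⟩
    rw [← heq, mem_map] at h2
    obtain ⟨b, _, hb⟩ := h2
    simp at hb

lemma allowed_sum [Finite V] [Finite W] {u Δ ω : ℕ} (hu : 1 ≤ u) (hG : Allowed u Δ ω G)
    (hH : Allowed u Δ ω H) : Allowed u Δ ω (G ⊕g H) := by
  rw [allowed_iff] at hG hH ⊢
  constructor
  · intro A hA
    rcases clique_sum hu hA with ⟨s', h1, h2⟩ | ⟨s', h1, h2⟩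
    · have hne : s'.Nonempty := by
        rw [← card_pos, h1.card_eq]; exact hu
      obtain ⟨a, ha⟩ := hne
      have : cns (G ⊕g H) A = Sum.inl '' cns G s' := by
        ext v
        constructor
        · intro hv
          rcases v with v | v
          · refine ⟨v, fun b hb => ?_, rfl⟩
            have := hv (Sum.inl b) (by rw [h2, mem_map]; exact ⟨b, hb, rfl⟩)
            simpa using this
          · have := hv (Sum.inl a) (by rw [h2, mem_map]; exact ⟨a, ha, rfl⟩)
            simp at this
        · rintro ⟨v, hv, rfl⟩ b hb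
          rw [h2, mem_map] at hb
          obtain ⟨b, hb, rfl⟩ := hb
          have := hv b hb
          simpa using this
      rw [this, Set.ncard_image_of_injective _ Sum.inl_injective]
      exact hG.1 s' h1
    · have hne : s'.Nonempty := by
        rw [← card_pos, h1.card_eq]; exact hu
      obtain ⟨a, ha⟩ := hne
      have : cns (G ⊕g H) A = Sum.inr '' cns H s' := by
        ext v
        constructor
        · intro hv
          rcases v with v | v
          · have := hv (Sum.inr a) (by rw [h2, mem_map]; exact ⟨a, ha, rfl⟩)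
            simp at this
          · refine ⟨v, fun b hb => ?_, rfl⟩
            have := hv (Sum.inr b) (by rw [h2, mem_map]; exact ⟨b, hb, rfl⟩)
            simpa using this
        · rintro ⟨v, hv, rfl⟩ b hb
          rw [h2, mem_map] at hb
          obtain ⟨b, hb, rfl⟩ := hb
          have := hv b hb
          simpa using this
      rw [this, Set.ncard_image_of_injective _ Sum.inr_injective]
      exact hH.1 s' h1
  · intro s hs
    rcases clique_sum (by omega) hs with ⟨s', h1, _⟩ | ⟨s', h1, _⟩
    · exact hG.2 s' h1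
    · exact hH.2 s' h1

lemma Ach.add {u t Δ ω p N p' N' : ℕ} (hu : 1 ≤ u) (ht : 1 ≤ t) (h : Ach u t Δ ω p N)
    (h' : Ach u t Δ ω p' N') : Ach u t Δ ω (p + p') (N + N') := by
  obtain ⟨m, G, hG, hp, hN⟩ := h
  obtain ⟨m', G', hG', hp', hN'⟩ := h'
  have h1 := ach_of (t := t) (G ⊕g G') (allowed_sum hu hG hG')
  rw [kc_sum hu, kc_sum ht, hp, hN, hp', hN'] at h1
  exact h1

lemma kc_of_card_lt [Finite V] {r : ℕ} (h : Nat.card V < r) : kc r G = 0 := by
  unfold kc
  have : {A : Finset V | G.IsNClique r A} = ∅ := by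
    rw [Set.eq_empty_iff_forall_notMem]
    intro A hA
    have h1 : A.card = r := hA.card_eq
    have := Fintype.ofFinite V
    have h2 := A.card_le_univ
    rw [Nat.card_eq_fintype_card] at h
    omega
  rw [this, Set.ncard_empty]

lemma Ach.zero {u t Δ ω : ℕ} (hu : 1 ≤ u) (ht : 1 ≤ t) : Ach u t Δ ω 0 0 := by
  have h1 : Allowed u Δ ω (⊥ : SimpleGraph (Fin 0)) := by
    rw [allowed_iff]
    constructor
    · intro A hA
      exfalso
      have h1 := hA.card_eq
      have h2 : A = ∅ := by
        ext v; exact v.elim0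
      rw [h2, card_empty] at h1
      omega
    · intro s hs
      have h1 := hs.card_eq
      have h2 : s = ∅ := by
        ext v; exact v.elim0
      rw [h2, card_empty] at h1
      omega
  have h2 := ach_of (t := t) _ h1
  rw [kc_of_card_lt (by simp; omega), kc_of_card_lt (by simp; omega)] at h2
  exact h2

lemma Ach.one {u t Δ ω : ℕ} (hω : u ≤ ω) (htu : u < t) : Ach u t Δ ω 1 0 := by
  have hcl : ∀ A : Finset (Fin u), (⊤ : SimpleGraph (Fin u)).IsNClique u A ↔ A = univ := by
    intro A
    rw [SimpleGraph.isNClique_iff]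
    constructor
    · intro h
      apply eq_univ_of_card
      rw [h.2, Fintype.card_fin]
    · rintro rfl
      refine ⟨?_, by simp⟩
      intro x _ y _ hxy
      exact hxy
  have h1 : Allowed u Δ ω (⊤ : SimpleGraph (Fin u)) := by
    rw [allowed_iff]
    constructor
    · intro A hA
      rw [hcl] at hA
      have : cns (⊤ : SimpleGraph (Fin u)) A = ∅ := by
        rw [Set.eq_empty_iff_forall_notMem]
        intro v hv
        exact not_mem_of_mem_cns hv (by rw [hA]; exact mem_univ _)
      rw [this, Set.ncard_empty]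
      omega
    · intro s hs
      have h1 := hs.card_eq
      have h2 := s.card_le_univ
      rw [Fintype.card_fin] at h2
      omega
  have h2 := ach_of (t := t) _ h1
  have h3 : kc u (⊤ : SimpleGraph (Fin u)) = 1 := by
    unfold kc
    have : {A : Finset (Fin u) | (⊤ : SimpleGraph (Fin u)).IsNClique u A} = {univ} := by
      ext A
      exact hcl A
    rw [this, Set.ncard_singleton]
  have h4 : kc t (⊤ : SimpleGraph (Fin u)) = 0 := kc_of_card_lt (by simpa using htu)
  rw [h3, h4] at h2
  exact h2

lemma Ach.mul {u t Δ ω p N : ℕ} (hu : 1 ≤ u) (ht : 1 ≤ t) (h : Ach u t Δ ω p N) (q : ℕ) :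
    Ach u t Δ ω (q * p) (q * N) := by
  induction q with
  | zero => simpa using Ach.zero hu ht
  | succ q ih =>
    rw [Nat.succ_mul, Nat.succ_mul]
    exact ih.add hu ht h

lemma Ach.div {u t Δ ω p0 N0 : ℕ} (hu : 1 ≤ u) (hω : u ≤ ω) (htu : u < t)
    (h : Ach u t Δ ω p0 N0) (p : ℕ) : Ach u t Δ ω p ((p / p0) * N0) := by
  have ht : 1 ≤ t := by omega
  have h1 := (h.mul hu ht (p / p0)).add hu ht ((Ach.one (Δ := Δ) hω htu).mul hu ht (p % p0))
  rw [mul_one, mul_zero, add_zero, mul_comm (p / p0) p0, Nat.div_add_mod] at h1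
  exact h1

end H57E32
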