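import Pool.Agent.H57.E32.Cliq

/-!
The upper bound for the number of `(u+2)`-cliques.
-/

namespace H57E32

open Finset

variable {V : Type*} [Fintype V] [DecidableEq V] {G : SimpleGraph V} [DecidableRel G.Adj]

lemma heavy_unique {s u : ℕ} (hdeg : ∀ A ∈ G.cliqueFinset u, (cn G A).card ≤ 2 * s + 1)
    (hfree : G.CliqueFree (u + 3)) {T : Finset V} (hT : T ∈ G.cliqueFinset (u + 2))
    {z z' : V} (hz : z ∈ T) (hz' : z' ∈ T) (hne : z ≠ z')
    (h1 : s + 1 ≤ (cn G (T.erase z)).card) (h2 : s + 1 ≤ (cn G (T.erase z')).card) : False := by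
  have hsub1 : cn G (T.erase z) ⊆ cn G ((T.erase z).erase z') := by
    intro v hv
    rw [mem_cn] at hv ⊢
    intro a ha
    exact hv a (erase_subset _ _ ha)
  have hsub2 : cn G (T.erase z') ⊆ cn G ((T.erase z).erase z') := by
    intro v hv
    rw [mem_cn] at hv ⊢
    intro a ha
    rw [mem_erase, mem_erase] at ha
    exact hv a (mem_erase.mpr ⟨ha.1, ha.2.2⟩)
  have hcl : (T.erase z).erase z' ∈ G.cliqueFinset u :=
    erase_clique (erase_clique hT hz) (mem_erase.mpr ⟨Ne.symm hne, hz'⟩)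
  have hd : Disjoint (cn G (T.erase z)) (cn G (T.erase z')) := by
    rw [disjoint_left]
    intro v hv hv'
    have hvT : v ∈ cn G T := by
      rw [mem_cn] at hv hv' ⊢
      intro a ha
      by_cases h : a = z
      · exact hv' a (mem_erase.mpr ⟨by rw [h]; exact hne, ha⟩)
      · exact hv a (mem_erase.mpr ⟨h, ha⟩)
    have := insert_clique hT hvT
    rw [SimpleGraph.mem_cliqueFinset_iff] at this
    exact hfree _ this
  have h3 := card_le_card (union_subset hsub1 hsub2)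
  rw [card_union_of_disjoint hd] at h3
  have h4 := hdeg _ hcl
  omega

lemma light_pairs {s u : ℕ} (hdeg : ∀ A ∈ G.cliqueFinset u, (cn G A).card ≤ 2 * s + 1)
    (hfree : G.CliqueFree (u + 3)) {T : Finset V} (hT : T ∈ G.cliqueFinset (u + 2)) :
    (u + 1) * u ≤ ∑ q ∈ T, ∑ p ∈ T.erase q, lgt G s T q * lgt G s T p := by
  classical
  set L := T.filter (fun z => (cn G (T.erase z)).card ≤ s) with hL
  have hLT : L ⊆ T := filter_subset _ _
  have hLc : u + 1 ≤ L.card := by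
    have h1 : (T \ L).card ≤ 1 := by
      rw [card_le_one]
      intro a ha b hb
      by_contra hne
      rw [mem_sdiff, hL, mem_filter, not_and, not_le] at ha hb
      exact heavy_unique hdeg hfree hT ha.1 hb.1 hne (ha.2 ha.1) (hb.2 hb.1)
    rw [card_sdiff_of_subset hLT, card_of_mem hT] at h1
    omega
  have h1 : ∀ z ∈ L, lgt G s T z = 1 := by
    intro z hz
    unfold lgt
    rw [if_pos (mem_filter.mp hz).2]
  calc (u + 1) * u ≤ L.card * (L.card - 1) := Nat.mul_le_mul hLc (by omega)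
    _ = ∑ q ∈ L, ∑ p ∈ L.erase q, lgt G s T q * lgt G s T p := by
      rw [← smul_eq_mul, ← sum_const]
      apply sum_congr rfl
      intro q hq
      rw [sum_congr rfl (g := fun _ => 1)]
      · rw [sum_const, smul_eq_mul, mul_one, card_erase_of_mem hq]
      · intro p hp
        rw [h1 q hq, h1 p (erase_subset _ _ hp)]
    _ ≤ ∑ q ∈ L, ∑ p ∈ T.erase q, lgt G s T q * lgt G s T p := by
      apply sum_le_sum
      intro q _
      exact sum_le_sum_of_subset (erase_subset_erase q hLT)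
    _ ≤ _ := sum_le_sum_of_subset hLT

/-- links of `(u-1)`-cliques -/
lemma link_cond {s u : ℕ} (hdeg : ∀ A ∈ G.cliqueFinset (u + 1), (cn G A).card ≤ 2 * s + 1)
    (hfree : G.CliqueFree (u + 1 + 3)) {A0 : Finset V} (hA0 : A0 ∈ G.cliqueFinset u) :
    (∀ a ∈ cn G A0, TF G (nb G (cn G A0) a)) ∧
      ∀ a ∈ cn G A0, (nb G (cn G A0) a).card ≤ 2 * s + 1 := by
  refine ⟨?_, ?_⟩
  · intro a ha x hx y hy z hz hxy hyz hxz
    rw [← cn_insert] at hx hy hz
    have h1 := insert_clique hA0 ha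
    have h2 := insert_clique h1 hx
    have hy' : y ∈ cn G (insert x (insert a A0)) := by
      rw [cn_insert, mem_nb]; exact ⟨hy, hxy⟩
    have h3 := insert_clique h2 hy'
    have hz' : z ∈ cn G (insert y (insert x (insert a A0))) := by
      rw [cn_insert, mem_nb, cn_insert, mem_nb]; exact ⟨⟨hz, hxz⟩, hyz⟩
    have h4 := insert_clique h3 hz'
    rw [SimpleGraph.mem_cliqueFinset_iff] at h4
    exact hfree _ h4
  · intro a ha
    rw [← cn_insert]
    exact hdeg _ (insert_clique hA0 ha)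

lemma sum_X2 (s n : ℕ) : ((n : ℤ) + 1) * ∑ A ∈ G.cliqueFinset (n + 1), X2 G s (cn G A) =
    ∑ A0 ∈ G.cliqueFinset n, ∑ v ∈ cn G A0, X2 G s (nb G (cn G A0) v) := by
  have h := sum_step (G := G) n (fun B _ => X2 G s (cn G B))
  have h1 : ∀ A0, ∑ v ∈ cn G A0, X2 G s (nb G (cn G A0) v) =
      ∑ v ∈ cn G A0, X2 G s (cn G (insert v A0)) := by
    intro A0
    exact sum_congr rfl (fun v _ => by rw [cn_insert])
  simp only [h1]
  rw [h, mul_sum]
  apply sum_congr rfl
  intro B hB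
  rw [sum_const, card_of_mem hB, nsmul_eq_mul]
  push_cast
  ring

/-- from a lower bound on the sum of the local functionals to an upper bound on the number of
cliques -/
lemma count_le {s u : ℕ} (hdeg : ∀ A ∈ G.cliqueFinset u, (cn G A).card ≤ 2 * s + 1)
    (hfree : G.CliqueFree (u + 3)) {c : ℤ}
    (hX : -c * ((G.cliqueFinset u).card : ℤ) ≤ ∑ A ∈ G.cliqueFinset u, X2 G s (cn G A)) :
    ((u : ℤ) + 1) * ((u + 2) * s + u) * ((G.cliqueFinset (u + 2)).card : ℤ) ≤
      (2 * (s : ℤ) ^ 2 * (s + 1) + c) * ((G.cliqueFinset u).card : ℤ) := by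
  unfold X2 at hX
  rw [sum_sub_distrib, sum_sub_distrib, sum_const, nsmul_eq_mul, ← mul_sum] at hX
  have h1 : (∑ A ∈ G.cliqueFinset u, (E2 G (cn G A) : ℤ)) =
      (u + 1) * (u + 2) * (G.cliqueFinset (u + 2)).card := by
    exact_mod_cast sum_E2 (G := G) u
  have h2 : ((u : ℤ) + 1) * u * (G.cliqueFinset (u + 2)).card ≤
      ∑ A ∈ G.cliqueFinset u, (E2 G (lts G s (cn G A)) : ℤ) := by
    have h3 := sum_L2 (G := G) s u
    have h4 : (u + 1) * u * (G.cliqueFinset (u + 2)).card ≤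
        ∑ A ∈ G.cliqueFinset u, E2 G (lts G s (cn G A)) := by
      rw [h3, mul_comm, ← smul_eq_mul, ← sum_const]
      exact sum_le_sum (fun T hT => light_pairs hdeg hfree hT)
    exact_mod_cast h4
  rw [h1] at hX
  nlinarith

theorem upper_main {s u : ℕ} (hs : 1200 ≤ s)
    (hdeg : ∀ A ∈ G.cliqueFinset (u + 1), (cn G A).card ≤ 2 * s + 1)
    (hfree : G.CliqueFree (u + 1 + 3)) :
    (((u + 1 : ℕ) : ℤ) + 1) * ((((u + 1 : ℕ) : ℤ) + 2) * s + ((u + 1 : ℕ) : ℤ)) *
      ((G.cliqueFinset (u + 1 + 2)).card : ℤ) ≤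
      (2 * (s : ℤ) ^ 2 * (s + 1)) * ((G.cliqueFinset (u + 1)).card : ℤ) := by
  have h : (0 : ℤ) ≤ ∑ A ∈ G.cliqueFinset (u + 1), X2 G s (cn G A) := by
    have h1 := sum_X2 (G := G) s u
    have h2 : (0 : ℤ) ≤ ∑ A0 ∈ G.cliqueFinset u, ∑ v ∈ cn G A0, X2 G s (nb G (cn G A0) v) := by
      apply sum_nonneg
      intro A0 hA0
      obtain ⟨hK, hd⟩ := link_cond hdeg hfree hA0
      exact link_sum_nonneg hs hK hd
    rw [← h1] at h2
    exact nonneg_of_mul_nonneg_right h2 (by positivity)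
  have := count_le (s := s) (u := u + 1) hdeg hfree (c := 0) (by simpa using h)
  simpa using this

theorem upper_crude {s u : ℕ} (hs : 1 ≤ s)
    (hdeg : ∀ A ∈ G.cliqueFinset (u + 1), (cn G A).card ≤ 2 * s + 1)
    (hfree : G.CliqueFree (u + 1 + 3)) :
    (((u + 1 : ℕ) : ℤ) + 1) * ((((u + 1 : ℕ) : ℤ) + 2) * s + ((u + 1 : ℕ) : ℤ)) *
      ((G.cliqueFinset (u + 1 + 2)).card : ℤ) ≤
      (2 * ((s : ℤ) ^ 2 + 1) * (s + 1)) * ((G.cliqueFinset (u + 1)).card : ℤ) := by
  have h : -(2 * ((s : ℤ) + 1)) * ((G.cliqueFinset (u + 1)).card : ℤ) ≤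
      ∑ A ∈ G.cliqueFinset (u + 1), X2 G s (cn G A) := by
    have h1 := sum_X2 (G := G) s u
    have h2 : -2 * ((s : ℤ) + 1) * (∑ A0 ∈ G.cliqueFinset u, ((cn G A0).card : ℤ)) ≤
        ∑ A0 ∈ G.cliqueFinset u, ∑ v ∈ cn G A0, X2 G s (nb G (cn G A0) v) := by
      rw [mul_sum]
      apply sum_le_sum
      intro A0 hA0
      obtain ⟨hK, hd⟩ := link_cond hdeg hfree hA0
      exact link_sum_ge hs hK hd
    have h3 : (∑ A0 ∈ G.cliqueFinset u, ((cn G A0).card : ℤ)) =
        (u + 1) * (G.cliqueFinset (u + 1)).card := by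
      exact_mod_cast sum_cn_card (G := G) u
    rw [h3, ← h1] at h2
    have h4 : ((u : ℤ) + 1) * (-(2 * ((s : ℤ) + 1)) * ((G.cliqueFinset (u + 1)).card : ℤ)) ≤
        ((u : ℤ) + 1) * ∑ A ∈ G.cliqueFinset (u + 1), X2 G s (cn G A) := by linarith
    exact le_of_mul_le_mul_left h4 (by positivity)
  have := count_le (s := s) (u := u + 1) hdeg hfree (c := 2 * ((s : ℤ) + 1)) h
  have e : 2 * (s : ℤ) ^ 2 * (s + 1) + 2 * ((s : ℤ) + 1) = 2 * ((s : ℤ) ^ 2 + 1) * (s + 1) := by ring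
  rw [e] at this
  exact this

end H57E32
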